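import Pool.Agent.Helper73.Star.Defs

set_option autoImplicit false

namespace Pool.Agent.Helper73.ST

open Finset Pool.Agent.Helper46.FF

variable {α : Type} [Fintype α] [DecidableEq α] {r : Finset α → ℕ}

/-! ### Module A -/

theorem mm_nonneg (h : RankFn r) {S T : Finset α} (hST : S ⊆ T) : 0 ≤ mm r S T :=
  (w_nonneg h _ S T hST rfl).1

theorem bb_nonneg (h : RankFn r) {S T : Finset α} (hST : S ⊆ T) (hne : S ≠ T) :
    0 ≤ bb r S T :=
  beta_nonneg h _ S T hST hne rfl

theorem mm_self (S : Finset α) : mm r S S = 1 := by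
  unfold mm w alt
  rw [Finset.Icc_self, Finset.sum_singleton]
  simp only [if_true, mul_one]
  rw [← two_mul, ← two_mul, pow_mul, pow_mul]
  simp

theorem insert_eq_of_loop (h : RankFn r) {S X : Finset α} {e : α} (hSX : S ⊆ X)
    (hl : r (insert e S) = r S) : r (insert e X) = r X := by
  have h1 := h.submod (insert e S) X
  have h2 : insert e S ∪ X = insert e X := by
    rw [Finset.insert_union, Finset.union_eq_right.mpr hSX]
  have h3 : r S ≤ r (insert e S ∩ X) := by
    apply h.mono
    exact Finset.subset_inter (Finset.subset_insert _ _) hSX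
  have h4 := h.le_insert X e
  rw [h2] at h1
  omega

theorem mm_loop (h : RankFn r) {S T : Finset α} {e : α} (heT : e ∈ T) (heS : e ∉ S)
    (hl : r (insert e S) = r S) : mm r S T = 0 := by
  unfold mm w
  rw [alt_loop heT heS, mul_zero]
  intro X hSX _
  simp only [insert_eq_of_loop h hSX hl]

theorem bb_loop (h : RankFn r) {S T : Finset α} {e : α} (heT : e ∈ T) (heS : e ∉ S)
    (hl : r (insert e S) = r S) : bb r S T = 0 := by
  unfold bb
  rw [c_eq_alt, alt_loop heT heS, mul_zero]
  intro X hSX _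
  simp only [insert_eq_of_loop h hSX hl]

theorem sign_eq {r' : Finset α → ℕ} {S T : Finset α} (a : ℕ) (hST : S ⊆ T)
    (hX : ∀ X, S ⊆ X → X ⊆ T → r' X + a = r X) :
    (-1 : ℤ) ^ (r' T + r' S) = (-1 : ℤ) ^ (r T + r S) := by
  rw [← hX T hST (Finset.Subset.refl _), ← hX S (Finset.Subset.refl _) hST]
  have : r' T + a + (r' S + a) = r' T + r' S + 2 * a := by ring
  rw [this, pow_add _ (r' T + r' S), pow_mul]
  simp

theorem mm_congr {r' : Finset α → ℕ} {S T : Finset α} (a : ℕ) (hST : S ⊆ T)
    (hX : ∀ X, S ⊆ X → X ⊆ T → r' X + a = r X) : mm r' S T = mm r S T := by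
  unfold mm
  rw [sign_eq a hST hX]
  congr 1
  unfold w
  apply alt_congr
  intro X h1 h2
  have e1 := hX X h1 h2
  have e2 := hX T hST (Finset.Subset.refl _)
  have : (r' X = r' T) ↔ (r X = r T) := by omega
  simp only [this]

theorem bb_congr {r' : Finset α → ℕ} {S T : Finset α} (a : ℕ) (hST : S ⊆ T) (hne : S ≠ T)
    (hX : ∀ X, S ⊆ X → X ⊆ T → r' X + a = r X) : bb r' S T = bb r S T := by
  unfold bb
  rw [sign_eq a hST hX]
  congr 1
  rw [c_eq_alt, c_eq_alt]
  have h1 : alt (fun X => (r X : ℤ)) S T = alt (fun X => (r' X : ℤ) + (a : ℤ)) S T := by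
    apply alt_congr
    intro X h1 h2
    rw [← hX X h1 h2]
    push_cast
    ring
  have h2 : alt (fun X => (r' X : ℤ) + (a : ℤ)) S T =
      alt (fun X => (r' X : ℤ)) S T + alt (fun _ => (a : ℤ)) S T := by
    unfold alt
    rw [← Finset.sum_add_distrib]
    apply Finset.sum_congr rfl
    intro X _
    ring
  rw [h1, h2, alt_const _ hST hne, add_zero]

/-- Deletion-contraction. -/
theorem mm_delcon {S T : Finset α} {e : α} (heT : e ∈ T) (heS : e ∉ S)
    (h1 : r (T.erase e) = r T) (h2 : r (insert e S) = r S + 1) :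
    mm r S T = mm r S (T.erase e) + mm r (insert e S) T := by
  unfold mm w
  rw [alt_split _ heT heS, h1, h2]
  rw [← add_assoc, pow_succ]
  ring

theorem mm_coloop {S T : Finset α} {e : α} (heT : e ∈ T) (heS : e ∉ S)
    (h1 : r (T.erase e) < r T) (h : RankFn r) (h2 : r (insert e S) = r S + 1) :
    mm r S T = mm r (insert e S) T := by
  unfold mm w
  rw [alt_split _ heT heS]
  have h3 : alt (fun X => if r X = r T then (1 : ℤ) else 0) S (T.erase e) = 0 := by
    unfold alt
    apply Finset.sum_eq_zero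
    intro X hX
    rw [Finset.mem_Icc] at hX
    have := h.mono hX.2
    have hne : r X ≠ r T := by omega
    simp only [hne, if_false, mul_zero]
  rw [h3, h2, ← add_assoc, pow_succ]
  ring

end Pool.Agent.Helper73.ST
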