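import Pool.Agent.Helper73.Star.Defs

set_option autoImplicit false

namespace Pool.Agent.Helper73.ST

open Finset Pool.Agent.Helper46.FF

variable {α : Type} [Fintype α] [DecidableEq α] {r : Finset α → ℕ}

private theorem sum_Icc_insert' (g : Finset α → ℤ) {S T : Finset α} {e : α} (heT : e ∈ T)
    (heS : e ∉ S) :
    ∑ X ∈ Icc S (T.erase e), g (insert e X) = ∑ Y ∈ Icc (insert e S) T, g Y := by
  refine Finset.sum_bij (fun X _ => insert e X) ?_ ?_ ?_ ?_
  · intro X hX
    rw [Finset.mem_Icc] at hX ⊢
    refine ⟨Finset.insert_subset_insert _ hX.1, ?_⟩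
    intro x hx
    rcases Finset.mem_insert.mp hx with h | h
    · rw [h]; exact heT
    · exact Finset.mem_of_mem_erase (hX.2 h)
  · intro X hX Y hY hXY
    rw [Finset.mem_Icc] at hX hY
    have hX' : e ∉ X := fun h => (Finset.notMem_erase e T) (hX.2 h)
    have hY' : e ∉ Y := fun h => (Finset.notMem_erase e T) (hY.2 h)
    rw [← Finset.erase_insert hX', ← Finset.erase_insert hY', hXY]
  · intro Y hY
    rw [Finset.mem_Icc] at hY
    have heY : e ∈ Y := hY.1 (Finset.mem_insert_self _ _)
    refine ⟨Y.erase e, ?_, Finset.insert_erase heY⟩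
    rw [Finset.mem_Icc]
    refine ⟨?_, Finset.erase_subset_erase _ hY.2⟩
    intro x hx
    exact Finset.mem_erase.mpr ⟨fun hh => heS (hh ▸ hx), hY.1 (Finset.mem_insert_of_mem hx)⟩
  · intro X _; rfl

private theorem beta_mu_aux (h : RankFn r) {p : α} :
    ∀ (m : ℕ) (S T : Finset α), S ⊆ T → p ∈ T → p ∉ S → (T \ S).card = m + 1 →
      ∑ F ∈ Icc (insert p S) T, c r S F * w r F T = w r S T := by
  intro m
  induction m with
  | zero =>
    intro S T hST hp hpS hcard
    have hT : T = insert p S := by
      have h1 : p ∈ T \ S := Finset.mem_sdiff.mpr ⟨hp, hpS⟩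
      obtain ⟨x, hx⟩ := Finset.card_eq_one.mp (by omega : (T \ S).card = 1)
      have h2 : x = p := by
        rw [hx, Finset.mem_singleton] at h1
        exact h1.symm
      rw [← Finset.sdiff_union_of_subset hST, hx, h2]
      rfl
    subst hT
    rw [Finset.Icc_self, Finset.sum_singleton]
    have h1 : w r (insert p S) (insert p S) = 1 := by
      unfold w alt
      rw [Finset.Icc_self, Finset.sum_singleton]
      simp only [if_true, mul_one]
      rw [← two_mul, pow_mul]; simp
    have he : (insert p S).erase p = S := Finset.erase_insert hpS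
    have h2 : c r S (insert p S) = (r S : ℤ) - r (insert p S) := by
      rw [c_eq_alt, alt_split _ (Finset.mem_insert_self p S) hpS, he]
      unfold alt
      rw [Finset.Icc_self, Finset.sum_singleton, Finset.Icc_self, Finset.sum_singleton,
        ← two_mul, ← two_mul, pow_mul, pow_mul]
      simp
    have h3 : w r S (insert p S) = (if r S = r (insert p S) then 1 else 0) - 1 := by
      unfold w
      rw [alt_split _ (Finset.mem_insert_self p S) hpS, he]
      unfold alt
      rw [Finset.Icc_self, Finset.sum_singleton, Finset.Icc_self, Finset.sum_singleton,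
        ← two_mul, ← two_mul, pow_mul, pow_mul]
      simp
    rw [h1, h2, h3, mul_one]
    have h4 := h.le_insert S p
    have h5 := h.insert_le S p
    split_ifs with h6
    · rw [h6]; ring
    · have h7 : r (insert p S) = r S + 1 := by omega
      rw [h7]; push_cast; ring
  | succ m ih =>
    intro S T hST hp hpS hcard
    obtain ⟨e, he⟩ : ((T \ S).erase p).Nonempty := by
      rw [← Finset.card_pos, Finset.card_erase_of_mem (Finset.mem_sdiff.mpr ⟨hp, hpS⟩), hcard]
      omega
    have hep : e ≠ p := (Finset.mem_erase.mp he).1
    have heTS := (Finset.mem_erase.mp he).2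
    have heT : e ∈ T := (Finset.mem_sdiff.mp heTS).1
    have heS : e ∉ S := (Finset.mem_sdiff.mp heTS).2
    have hepS : e ∉ insert p S := by
      rw [Finset.mem_insert]; push Not; exact ⟨hep, heS⟩
    have hSe : S ⊆ T.erase e := by
      intro x hx
      exact Finset.mem_erase.mpr ⟨fun hh => heS (hh ▸ hx), hST hx⟩
    have hinsT : insert e S ⊆ T := by
      intro x hx
      rcases Finset.mem_insert.mp hx with h' | h'
      · rw [h']; exact heT
      · exact hST h'
    have hc1 : (T.erase e \ S).card = m + 1 := by
      have : T.erase e \ S = (T \ S).erase e := by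
        ext x; simp only [mem_sdiff, mem_erase]; tauto
      rw [this, Finset.card_erase_of_mem heTS, hcard]; rfl
    have hc2 : (T \ insert e S).card = m + 1 := by
      have : T \ insert e S = (T \ S).erase e := by
        ext x; simp only [mem_sdiff, mem_erase, mem_insert]; tauto
      rw [this, Finset.card_erase_of_mem heTS, hcard]; rfl
    have i1 := ih S (T.erase e) hSe (Finset.mem_erase.mpr ⟨hep.symm, hp⟩) hpS hc1
    have i2 := ih (insert e S) T hinsT hp (by
      rw [Finset.mem_insert]; push Not; exact ⟨hep.symm, hpS⟩) hc2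
    set A : Finset α → ℤ := fun F => alt (fun X => if r X = r T then 1 else 0) F (T.erase e) with hA
    have hw : ∀ F, e ∉ F → w r F T = A F - w r (insert e F) T := by
      intro F hF
      unfold w
      exact alt_split _ heT hF
    rw [sum_Icc_split (fun F => c r S F * w r F T) heT hepS]
    have h1 : ∀ F ∈ Icc (insert p S) (T.erase e),
        c r S F * w r F T + c r S (insert e F) * w r (insert e F) T
        = c r S F * A F - c r (insert e S) (insert e F) * w r (insert e F) T := by
      intro F hF
      have hF' : e ∉ F := fun h => (Finset.notMem_erase e T) ((Finset.mem_Icc.mp hF).2 h)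
      have h2 : c r S (insert e F) = c r S F - c r (insert e S) (insert e F) := by
        rw [c_eq_alt, alt_split _ (Finset.mem_insert_self e F) heS, Finset.erase_insert hF']
        rfl
      rw [hw F hF', h2]; ring
    rw [Finset.sum_congr rfl h1, Finset.sum_sub_distrib,
      sum_Icc_insert' (fun F => c r (insert e S) F * w r F T) heT hepS, Finset.insert_comm e p S, i2,
      hw S heS]
    congr 1
    by_cases hr : r (T.erase e) = r T
    · have h2 : ∀ F, A F = w r F (T.erase e) := by
        intro F
        rw [hA]
        unfold w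
        rw [hr]
      rw [h2 S, ← i1]
      apply Finset.sum_congr rfl
      intro F _
      rw [h2 F]
    · have h2 : ∀ F, A F = 0 := by
        intro F
        rw [hA]
        unfold alt
        apply Finset.sum_eq_zero
        intro X hX
        rw [Finset.mem_Icc] at hX
        have h3 := h.mono hX.2
        have h4 := h.mono (Finset.erase_subset e T)
        beta_reduce
        rw [if_neg (by omega)]
        ring
      rw [h2 S]
      apply Finset.sum_eq_zero
      intro F _
      rw [h2 F, mul_zero]

theorem beta_mu (h : RankFn r) {S T : Finset α} (hST : S ⊆ T) {p : α} (hp : p ∈ T) (hpS : p ∉ S) :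
    ∑ F ∈ Icc (insert p S) T, bb r S F * mm r F T = mm r S T := by
  have h1 : ∀ F ∈ Icc (insert p S) T, bb r S F * mm r F T
      = (-1 : ℤ) ^ (r T + r S) * (c r S F * w r F T) := by
    intro F _
    unfold bb mm
    have h2 : (-1 : ℤ) ^ (r F + r S) * (-1 : ℤ) ^ (r T + r F) = (-1 : ℤ) ^ (r T + r S) := by
      rw [← pow_add]
      have : r F + r S + (r T + r F) = (r T + r S) + 2 * r F := by ring
      rw [this, pow_add _ (r T + r S) (2 * r F), pow_mul]
      simp
    rw [← h2]; ring
  rw [Finset.sum_congr rfl h1, ← Finset.mul_sum]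
  have h3 : (T \ S).card = ((T \ S).card - 1) + 1 := by
    have : 0 < (T \ S).card := Finset.card_pos.mpr ⟨p, Finset.mem_sdiff.mpr ⟨hp, hpS⟩⟩
    omega
  rw [beta_mu_aux h _ S T hST hp hpS h3]
  rfl

end Pool.Agent.Helper73.ST
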