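import Pool.Agent.Helper73.Star.Defs

set_option autoImplicit false

/-! Module W: Weisner's theorem for the minors of a rank function. -/

namespace Pool.Agent.Helper73.ST

open Finset Pool.Agent.Helper46.FF

variable {α : Type} [Fintype α] [DecidableEq α] {r : Finset α → ℕ}

theorem W_union_eq (h : RankFn r) (Y Z : Finset α) (hZ : ∀ e ∈ Z, r (insert e Y) = r Y) :
    r (Y ∪ Z) = r Y := by
  induction Z using Finset.induction_on with
  | empty => simp
  | insert a s ha ih =>
    have h1 : r (Y ∪ s) = r Y := ih fun e he => hZ e (Finset.mem_insert_of_mem he)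
    rw [Finset.union_insert, ← h1]
    exact h.insert_eq_of_subset Finset.subset_union_left (hZ a (Finset.mem_insert_self _ _))

/-- The closure of `Y` in `T`. -/
def W_cl (r : Finset α → ℕ) (T Y : Finset α) : Finset α := T.filter fun e => r (insert e Y) = r Y

theorem W_subset_cl {T Y : Finset α} (hY : Y ⊆ T) : Y ⊆ W_cl r T Y := by
  intro e he
  rw [W_cl, Finset.mem_filter, Finset.insert_eq_of_mem he]
  exact ⟨hY he, rfl⟩

theorem W_rank_cl (h : RankFn r) {T Y : Finset α} (hY : Y ⊆ T) : r (W_cl r T Y) = r Y := by
  have h1 := W_union_eq h Y (W_cl r T Y) fun e he => (Finset.mem_filter.1 he).2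
  rwa [Finset.union_eq_right.2 (W_subset_cl hY)] at h1

/-- Weisner's theorem. -/
theorem weisner (h : RankFn r) {S T : Finset α} (hST : S ⊆ T) {p : α} (hp : p ∈ T) (hpS : p ∉ S) :
    ∑ H ∈ (hyp r S T).filter (fun H => p ∉ H), mm r S H = mm r S T := by
  set P : Finset (Finset α) := (Icc S (T.erase p)).filter fun X =>
    r X + 1 = r T ∧ r (insert p X) = r T with hP
  have hw : w r S T = - ∑ X ∈ P, (-1 : ℤ) ^ (X.card + S.card) := by
    rw [w, alt, sum_Icc_split _ hp hpS, hP, Finset.sum_filter, ← Finset.sum_neg_distrib]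
    refine Finset.sum_congr rfl fun X hX => ?_
    rw [Finset.mem_Icc] at hX
    have hpX : p ∉ X := fun hh => (Finset.notMem_erase p T) (hX.2 hh)
    rw [Finset.card_insert_of_notMem hpX]
    have h1 := h.le_insert X p
    have h2 := h.insert_le X p
    have h3 : r (insert p X) ≤ r T :=
      h.mono (Finset.insert_subset hp (hX.2.trans (Finset.erase_subset _ _)))
    by_cases h4 : r X = r T
    · have h5 : r (insert p X) = r T := by omega
      rw [if_pos h4, if_pos h5, if_neg (by omega)]
      ring
    · by_cases h5 : r (insert p X) = r T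
      · rw [if_neg h4, if_pos h5, if_pos (by omega)]
        ring
      · rw [if_neg h4, if_neg h5, if_neg (by omega)]
        ring
  have hmaps : ∀ X ∈ P, W_cl r T X ∈ (hyp r S T).filter (fun H => p ∉ H) := by
    intro X hX
    rw [hP, Finset.mem_filter, Finset.mem_Icc] at hX
    obtain ⟨⟨h1, h2⟩, h3, h4⟩ := hX
    have h5 : X ⊆ T := h2.trans (Finset.erase_subset _ _)
    have h6 := W_rank_cl h h5
    rw [Finset.mem_filter, hyp, Finset.mem_filter, Finset.mem_Icc, h6]
    refine ⟨⟨⟨h1.trans (W_subset_cl h5), Finset.filter_subset _ _⟩, h3, ?_⟩, ?_⟩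
    · intro e heT heX
      have h7 : r (insert e X) ≠ r X := fun h8 => heX (Finset.mem_filter.2 ⟨heT, h8⟩)
      have h8 := h.le_insert X e
      have h9 : r (insert e X) ≤ r (insert e (W_cl r T X)) :=
        h.mono (Finset.insert_subset_insert _ (W_subset_cl h5))
      have h10 : r (insert e (W_cl r T X)) ≤ r T :=
        h.mono (Finset.insert_subset heT (Finset.filter_subset _ _))
      omega
    · intro hh
      have := (Finset.mem_filter.1 hh).2
      omega
  have hfib := Finset.sum_fiberwise_of_maps_to hmaps (fun X => (-1 : ℤ) ^ (X.card + S.card))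
  rw [mm, hw, ← hfib, ← Finset.sum_neg_distrib, Finset.mul_sum]
  refine Finset.sum_congr rfl fun H hH => ?_
  rw [Finset.mem_filter, hyp, Finset.mem_filter, Finset.mem_Icc] at hH
  obtain ⟨⟨⟨h1, h2⟩, h3, h4⟩, h5⟩ := hH
  have hset : P.filter (fun X => W_cl r T X = H) = (Icc S H).filter (fun X => r X = r H) := by
    ext X
    rw [Finset.mem_filter, hP, Finset.mem_filter, Finset.mem_Icc, Finset.mem_filter,
      Finset.mem_Icc]
    constructor
    · rintro ⟨⟨⟨h6, h7⟩, h8, h9⟩, h10⟩
      have h11 : X ⊆ T := h7.trans (Finset.erase_subset _ _)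
      refine ⟨⟨h6, ?_⟩, by omega⟩
      rw [← h10]
      exact W_subset_cl h11
    · rintro ⟨⟨h6, h7⟩, h8⟩
      have hpX : p ∉ X := fun hh => h5 (h7 hh)
      have h9 : r (insert p X) = r T := by
        by_contra h10
        have h11 := h.le_insert X p
        have h12 := h.insert_le X p
        have h13 : r (insert p X) ≤ r T := h.mono (Finset.insert_subset hp (h7.trans h2))
        have h14 : r (insert p X) = r X := by omega
        have h15 := h.insert_eq_of_subset h7 h14
        have h16 := h4 p hp h5
        omega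
      refine ⟨⟨⟨h6, Finset.subset_erase.2 ⟨h7.trans h2, hpX⟩⟩, by omega, h9⟩, ?_⟩
      ext e
      rw [W_cl, Finset.mem_filter]
      constructor
      · rintro ⟨h10, h11⟩
        by_contra h12
        have h13 := h.insert_eq_of_subset h7 h11
        have h14 := h4 e h10 h12
        omega
      · intro he
        refine ⟨h2 he, ?_⟩
        have h10 := h.le_insert X e
        have h11 : r (insert e X) ≤ r H := h.mono (Finset.insert_subset he h7)
        omega
  have hset' : ∑ X ∈ P.filter (fun X => W_cl r T X = H), (-1 : ℤ) ^ (X.card + S.card) =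
      w r S H := by
    rw [hset, w, alt, Finset.sum_filter]
    refine Finset.sum_congr rfl fun X _ => ?_
    split_ifs <;> simp
  rw [hset', mm]
  have h6 : r T + r S = r H + r S + 1 := by omega
  rw [h6, pow_succ]
  ring

end Pool.Agent.Helper73.ST
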