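import Pool.Agent.Helper73.Star.Defs
import Pool.Agent.Helper73.Star.W

set_option autoImplicit false

namespace Pool.Agent.Helper73.ST

open Finset Pool.Agent.Helper46.FF

variable {α : Type} [Fintype α] [DecidableEq α] {r : Finset α → ℕ}

/-- Step 1, with Weisner's theorem as an argument. -/
theorem step_one_aux {S T : Finset α} {p d : α} {R : Finset α → ℤ}
    (weisner : ∀ F : Finset α, F ⊆ T → d ∉ F →
      ∑ H ∈ (hyp r F T).filter (fun H => d ∉ H), mm r F H = mm r F T)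
    (hs : ∀ X ∈ hyp r S T, p ∈ X → d ∉ X → Star r S X p (fun A => R (A ∪ (T \ X)))) :
    ∑ F ∈ (Icc (insert p S) T).filter (fun F => d ∉ F), bb r S F * mm r F T * R (T \ F) ≤
      ∑ X ∈ (hyp r S T).filter (fun X => p ∈ X ∧ d ∉ X),
        ∑ Y ∈ (hyp r S X).filter (fun Y => p ∉ Y), mm r S Y * R ((Y \ S) ∪ (T \ X)) := by
  have h1 : ∑ F ∈ (Icc (insert p S) T).filter (fun F => d ∉ F),
      bb r S F * mm r F T * R (T \ F) =
      ∑ X ∈ (hyp r S T).filter (fun X => p ∈ X ∧ d ∉ X),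
        ∑ F ∈ Icc (insert p S) X, bb r S F * mm r F X * R ((X \ F) ∪ (T \ X)) := by
    have h2 : ∀ F ∈ (Icc (insert p S) T).filter (fun F => d ∉ F),
        bb r S F * mm r F T * R (T \ F) =
        ∑ X ∈ (hyp r F T).filter (fun X => d ∉ X), bb r S F * mm r F X * R (T \ F) := by
      intro F hF
      rw [mem_filter, mem_Icc] at hF
      rw [← weisner F hF.1.2 hF.2, Finset.mul_sum, Finset.sum_mul]
    rw [Finset.sum_congr rfl h2]
    have h3 : ∀ X ∈ (hyp r S T).filter (fun X => p ∈ X ∧ d ∉ X),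
        ∑ F ∈ Icc (insert p S) X, bb r S F * mm r F X * R ((X \ F) ∪ (T \ X)) =
        ∑ F ∈ Icc (insert p S) X, bb r S F * mm r F X * R (T \ F) := by
      intro X hX
      rw [mem_filter] at hX
      refine Finset.sum_congr rfl fun F hF => ?_
      rw [mem_Icc] at hF
      have hXT : X ⊆ T := by
        have := hX.1
        rw [hyp, mem_filter, mem_Icc] at this
        exact this.1.2
      have : (X \ F) ∪ (T \ X) = T \ F := by
        ext e
        simp only [mem_union, mem_sdiff]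
        constructor
        · rintro (⟨a, b⟩ | ⟨a, b⟩)
          · exact ⟨hXT a, b⟩
          · exact ⟨a, fun hb => b (hF.2 hb)⟩
        · rintro ⟨a, b⟩
          by_cases hx : e ∈ X
          · exact Or.inl ⟨hx, b⟩
          · exact Or.inr ⟨a, hx⟩
      rw [this]
    rw [Finset.sum_congr rfl h3]
    apply Finset.sum_comm'
    intro F X
    simp only [mem_filter, mem_Icc, hyp]
    constructor
    · rintro ⟨⟨⟨h1, h2⟩, h3⟩, ⟨⟨h4, h5⟩, h6, h7⟩, h8⟩
      exact ⟨⟨h1, h4⟩, ⟨⟨(subset_insert _ _).trans (h1.trans h4), h5⟩, h6, h7⟩,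
        h4 (h1 (mem_insert_self _ _)), h8⟩
    · rintro ⟨⟨h1, h4⟩, ⟨⟨h2, h5⟩, h6, h7⟩, h9, h8⟩
      exact ⟨⟨⟨h1, h4.trans h5⟩, fun h => h8 (h4 h)⟩, ⟨⟨h4, h5⟩, h6, h7⟩, h8⟩
  rw [h1]
  refine Finset.sum_le_sum fun X hX => ?_
  rw [mem_filter] at hX
  exact hs X hX.1 hX.2.1 hX.2.2

/-- Step 1. -/
theorem step_one {S T L : Finset α} {p d : α} (l : Line r S T L p d) {R : Finset α → ℤ}
    (hs : ∀ X ∈ hyp r S T, p ∈ X → d ∉ X → Star r S X p (fun A => R (A ∪ (T \ X)))) :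
    ∑ F ∈ (Icc (insert p S) T).filter (fun F => d ∉ F), bb r S F * mm r F T * R (T \ F) ≤
      ∑ X ∈ (hyp r S T).filter (fun X => p ∈ X ∧ d ∉ X),
        ∑ Y ∈ (hyp r S X).filter (fun Y => p ∉ Y), mm r S Y * R ((Y \ S) ∪ (T \ X)) :=
  step_one_aux (fun _ hF hd => weisner l.rk hF (l.LT l.dL) hd) hs

end Pool.Agent.Helper73.ST
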