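import Pool.Agent.Helper73.Star.Defs

/-! (STAR), module C2: the sums over pairs `(X, Y)` and `(Y, H)`. -/

set_option autoImplicit false

namespace Pool.Agent.Helper73.ST

open Finset Pool.Agent.Helper46.FF

variable {α : Type} [Fintype α] [DecidableEq α] {r : Finset α → ℕ}

theorem C2.mem_hyp {S T H : Finset α} : H ∈ hyp r S T ↔
    (S ⊆ H ∧ H ⊆ T) ∧ r H + 1 = r T ∧ ∀ e ∈ T, e ∉ H → r (insert e H) = r T := by
  simp only [hyp, mem_filter, mem_Icc]

theorem C2.mem_skew {S T L Y : Finset α} : Y ∈ skew r S T L ↔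
    (S ⊆ Y ∧ Y ⊆ T) ∧ r Y + 2 = r T ∧ r (Y ∪ L) = r T ∧
      ∀ e ∈ T, e ∉ Y → r (insert e Y) = r Y + 1 := by
  simp only [skew, mem_filter, mem_Icc]

/-- the closure of `A` in `T` -/
def C2.cl (r : Finset α → ℕ) (T A : Finset α) : Finset α :=
  T.filter fun e => r (insert e A) = r A

/-- inserting a set of elements of the closure does not change the rank -/
theorem C2.rank_union (h : RankFn r) (A B : Finset α) (hB : ∀ e ∈ B, r (insert e A) = r A) :
    r (A ∪ B) = r A := by
  induction B using Finset.induction_on with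
  | empty => simp
  | insert b B hb ih =>
    have h1 : r (A ∪ B) = r A := ih fun e he => hB e (mem_insert_of_mem he)
    have h2 : A ∪ insert b B = insert b (A ∪ B) := by
      ext x; simp only [mem_union, mem_insert]; tauto
    rw [h2, h.insert_eq_of_subset subset_union_left (hB b (mem_insert_self _ _)), h1]

theorem C2.rank_cl (h : RankFn r) {T A : Finset α} (hA : A ⊆ T) : r (C2.cl r T A) = r A := by
  have h1 : A ∪ C2.cl r T A = C2.cl r T A := by
    apply union_eq_right.2
    intro x hx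
    refine mem_filter.2 ⟨hA hx, ?_⟩
    rw [insert_eq_self.2 hx]
  rw [← h1]
  exact C2.rank_union h A _ fun e he => (mem_filter.1 he).2

omit [Fintype α] in
theorem C2.subset_cl {T A : Finset α} (hA : A ⊆ T) : A ⊆ C2.cl r T A := by
  intro x hx
  refine mem_filter.2 ⟨hA hx, ?_⟩
  rw [insert_eq_self.2 hx]

theorem C2.insert_ge (h : RankFn r) {A B : Finset α} (hAB : A ⊆ B) (e : α) :
    r (insert e B) + r A ≤ r (insert e A) + r B := by
  have h1 := h.submod (insert e A) B
  have h2 : insert e A ∪ B = insert e B := by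
    ext x; simp only [mem_union, mem_insert]
    constructor
    · rintro ((hx | hx) | hx)
      · exact Or.inl hx
      · exact Or.inr (hAB hx)
      · exact Or.inr hx
    · rintro (hx | hx)
      · exact Or.inl (Or.inl hx)
      · exact Or.inr hx
  have h3 : A ⊆ insert e A ∩ B := fun x hx => mem_inter.2 ⟨mem_insert_of_mem hx, hAB hx⟩
  have h4 := h.mono h3
  rw [h2] at h1
  omega

theorem C2.skew_notMem {S T L Y : Finset α} {p d : α} (l : Line r S T L p d)
    (hY : Y ∈ skew r S T L) : p ∉ Y ∧ d ∉ C2.cl r T (insert p Y) := by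
  obtain ⟨⟨hSY, hYT⟩, hr, hrL, hfl⟩ := C2.mem_skew.1 hY
  have hpY : p ∉ Y := by
    intro hp
    have h1 := l.rk.submod Y L
    have h2 : r (insert p S) ≤ r (Y ∩ L) := by
      apply l.rk.mono
      intro x hx
      rcases mem_insert.1 hx with rfl | hx
      · exact mem_inter.2 ⟨hp, l.pL⟩
      · exact mem_inter.2 ⟨hSY hx, l.SL hx⟩
    have h3 := l.rp
    have h4 := l.rL
    omega
  refine ⟨hpY, ?_⟩
  intro hd
  have hpT : insert p Y ⊆ T := by
    intro x hx
    rcases mem_insert.1 hx with rfl | hx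
    · exact l.LT l.pL
    · exact hYT hx
  have hX := C2.rank_cl (r := r) l.rk hpT
  have h0 := hfl p (l.LT l.pL) hpY
  set X := C2.cl r T (insert p Y) with hXdef
  have hXsub : insert p Y ⊆ X := C2.subset_cl hpT
  have h1 := l.rk.submod X L
  have h2 : r (insert d (insert p S)) ≤ r (X ∩ L) := by
    apply l.rk.mono
    intro x hx
    rcases mem_insert.1 hx with rfl | hx
    · exact mem_inter.2 ⟨hd, l.dL⟩
    · rcases mem_insert.1 hx with rfl | hx
      · exact mem_inter.2 ⟨hXsub (mem_insert_self _ _), l.pL⟩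
      · exact mem_inter.2 ⟨hXsub (mem_insert_of_mem (hSY hx)), l.SL hx⟩
  have h3 := l.rpd
  have h4 := l.rL
  have h5 : r (Y ∪ L) ≤ r (X ∪ L) := by
    apply l.rk.mono
    exact union_subset_union_left ((subset_insert _ _).trans hXsub)
  omega

/-- The pairs `(X, Y)` of step 1 are given by the skew flats. -/
theorem sum_skew {S T L : Finset α} {p d : α} (l : Line r S T L p d) (f : Finset α → ℤ) :
    ∑ X ∈ (hyp r S T).filter (fun X => p ∈ X ∧ d ∉ X),
        ∑ Y ∈ (hyp r S X).filter (fun Y => p ∉ Y), f Y = ∑ Y ∈ skew r S T L, f Y := by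
  rw [Finset.sum_sigma']
  refine Finset.sum_bij' (fun a _ => a.2) (fun Y _ => ⟨C2.cl r T (insert p Y), Y⟩) ?_ ?_ ?_ ?_ ?_
  · rintro ⟨X, Y⟩ ha
    simp only [mem_sigma, mem_filter] at ha
    obtain ⟨⟨hX, hpX, hdX⟩, hY, hpY⟩ := ha
    obtain ⟨⟨hSX, hXT⟩, hrX, hflX⟩ := C2.mem_hyp.1 hX
    obtain ⟨⟨hSY, hYX⟩, hrY, hflY⟩ := C2.mem_hyp.1 hY
    change Y ∈ skew r S T L
    refine C2.mem_skew.2 ⟨⟨hSY, hYX.trans hXT⟩, by omega, ?_, ?_⟩
    · apply le_antisymm (l.rk.mono (union_subset (hYX.trans hXT) l.LT))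
      have h1 := hflY p hpX hpY
      have h2 := hflX d (l.LT l.dL) hdX
      have h3 : insert p Y ⊆ X := by
        intro x hx
        rcases mem_insert.1 hx with rfl | hx
        · exact hpX
        · exact hYX hx
      have h4 := C2.insert_ge (r := r) l.rk h3 d
      have h5 : r (insert d (insert p Y)) ≤ r (Y ∪ L) := by
        apply l.rk.mono
        intro x hx
        rcases mem_insert.1 hx with rfl | hx
        · exact mem_union_right _ l.dL
        · rcases mem_insert.1 hx with rfl | hx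
          · exact mem_union_right _ l.pL
          · exact mem_union_left _ hx
      omega
    · intro e he heY
      by_cases heX : e ∈ X
      · have := hflY e heX heY
        omega
      · have h2 := hflX e he heX
        have h4 := C2.insert_ge (r := r) l.rk hYX e
        have h5 := l.rk.insert_le Y e
        omega
  · intro Y hY
    obtain ⟨hpY, hdX⟩ := C2.skew_notMem l hY
    obtain ⟨⟨hSY, hYT⟩, hr, hrL, hfl⟩ := C2.mem_skew.1 hY
    have hpT : insert p Y ⊆ T := by
      intro x hx
      rcases mem_insert.1 hx with rfl | hx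
      · exact l.LT l.pL
      · exact hYT hx
    have hX := C2.rank_cl (r := r) l.rk hpT
    have h0 := hfl p (l.LT l.pL) hpY
    have hXsub : insert p Y ⊆ C2.cl r T (insert p Y) := C2.subset_cl hpT
    have hXT : C2.cl r T (insert p Y) ⊆ T := filter_subset _ _
    simp only [mem_sigma, mem_filter]
    refine ⟨⟨C2.mem_hyp.2 ⟨⟨?_, hXT⟩, ?_, ?_⟩, hXsub (mem_insert_self _ _), hdX⟩,
      C2.mem_hyp.2 ⟨⟨hSY, (subset_insert _ _).trans hXsub⟩, ?_, ?_⟩, hpY⟩
    · exact hSY.trans ((subset_insert _ _).trans hXsub)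
    · omega
    · intro e he heX
      have h1 : r (insert e (insert p Y)) ≠ r (insert p Y) := fun hh =>
        heX (mem_filter.2 ⟨he, hh⟩)
      have h2 := l.rk.le_insert (insert p Y) e
      have h3 : r (insert e (insert p Y)) ≤ r (insert e (C2.cl r T (insert p Y))) :=
        l.rk.mono (insert_subset_insert _ hXsub)
      have h4 : r (insert e (C2.cl r T (insert p Y))) ≤ r T :=
        l.rk.mono (insert_subset he hXT)
      omega
    · omega
    · intro e he heY
      have := hfl e (hXT he) heY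
      omega
  · rintro ⟨X, Y⟩ ha
    simp only [mem_sigma, mem_filter] at ha
    obtain ⟨⟨hX, hpX, hdX⟩, hY, hpY⟩ := ha
    obtain ⟨⟨hSX, hXT⟩, hrX, hflX⟩ := C2.mem_hyp.1 hX
    obtain ⟨⟨hSY, hYX⟩, hrY, hflY⟩ := C2.mem_hyp.1 hY
    have hkey : C2.cl r T (insert p Y) = X := by
      have h1 := hflY p hpX hpY
      have h3 : insert p Y ⊆ X := by
        intro x hx
        rcases mem_insert.1 hx with rfl | hx
        · exact hpX
        · exact hYX hx
      ext e
      simp only [C2.cl, mem_filter]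
      constructor
      · rintro ⟨heT, he⟩
        by_contra heX
        have h2 := hflX e heT heX
        have h4 := C2.insert_ge (r := r) l.rk h3 e
        omega
      · intro heX
        refine ⟨hXT heX, ?_⟩
        apply le_antisymm _ (l.rk.le_insert _ _)
        rw [h1]
        exact l.rk.mono (insert_subset heX h3)
    simp only [hkey]
  · intro Y _
    rfl
  · rintro ⟨X, Y⟩ _
    rfl

set_option linter.unusedVariables false in
/-- Exchange of the sums over `Y` and `H`. -/
theorem sum_exchange {S T L : Finset α} {p d : α} (l : Line r S T L p d) (P : Finset α → Prop)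
    [DecidablePred P] (f : Finset α → Finset α → ℤ) :
    ∑ Y ∈ skew r S T L, ∑ H ∈ (hyp r Y T).filter P, f Y H =
      ∑ H ∈ (hyp r S T).filter P, ∑ Y ∈ (skew r S T L).filter (fun Y => Y ⊆ H), f Y H := by
  apply Finset.sum_comm'
  intro Y H
  simp only [mem_filter, C2.mem_hyp]
  constructor
  · rintro ⟨hY, ⟨⟨hYH, hHT⟩, h1⟩, hP⟩
    have hSY := (C2.mem_skew.1 hY).1.1
    exact ⟨⟨hY, hYH⟩, ⟨⟨hSY.trans hYH, hHT⟩, h1⟩, hP⟩
  · rintro ⟨⟨hY, hYH⟩, ⟨⟨hSH, hHT⟩, h1⟩, hP⟩
    exact ⟨hY, ⟨⟨hYH, hHT⟩, h1⟩, hP⟩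

end Pool.Agent.Helper73.ST
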