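import Pool.Agent.Helper73.Star.Defs

set_option autoImplicit false

/-! Module E1 of (STAR): the rank function `ext`. -/

namespace Pool.Agent.Helper73.ST

open Finset Pool.Agent.Helper46.FF

variable {α : Type} [Fintype α] [DecidableEq α] {r : Finset α → ℕ}

/-- The value of `ext` in terms of `A = (X ∩ Z) ∪ S`. -/
theorem ext_eq (h : RankFn r) {S L Z : Finset α} {p : α} (hSL : S ⊆ L) (X : Finset α) :
    ext r S L Z p X = (if p ∈ X then r (((X ∩ Z) ∪ S) ∪ L) - 1 else r ((X ∩ Z) ∪ S)) - r S := by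
  unfold ext
  have h1 : ((X ∩ Z) ∪ S) ∪ L = (X ∩ Z) ∪ L := by
    rw [Finset.union_assoc, Finset.union_eq_right.mpr hSL]
  rw [h1]

theorem ext_aux (h : RankFn r) {S L Z A : Finset α} (hZ : r Z + 1 ≤ r (Z ∪ L)) (hAZ : A ⊆ Z) :
    r A + 1 ≤ r (A ∪ L) := by
  have h1 := h.submod Z (A ∪ L)
  have h2 : A ⊆ Z ∩ (A ∪ L) := Finset.subset_inter hAZ Finset.subset_union_left
  have h3 := h.mono h2
  have h4 : Z ∪ (A ∪ L) = Z ∪ L := by
    rw [← Finset.union_assoc, Finset.union_eq_left.mpr hAZ]
  rw [h4] at h1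
  omega

theorem ext_rankFn' (h : RankFn r) {S L Z : Finset α} {p : α} (hSL : S ⊆ L) (hSZ : S ⊆ Z)
    (hrL : r L ≤ r S + 2) (hpZ : p ∉ Z) (hZ : r Z + 1 ≤ r (Z ∪ L)) :
    RankFn (ext r S L Z p) := by
  have hA : ∀ X : Finset α, (X ∩ Z) ∪ S ⊆ Z := fun X =>
    Finset.union_subset Finset.inter_subset_right hSZ
  have hS : ∀ X : Finset α, r S ≤ r ((X ∩ Z) ∪ S) := fun X => h.mono Finset.subset_union_right
  have hL : ∀ X : Finset α, r ((X ∩ Z) ∪ S) + 1 ≤ r (((X ∩ Z) ∪ S) ∪ L) := fun X =>
    ext_aux (S := S) h hZ (hA X)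
  have hL2 : ∀ X : Finset α, r (((X ∩ Z) ∪ S) ∪ L) ≤ r ((X ∩ Z) ∪ S) + 2 := by
    intro X
    have h1 := h.submod ((X ∩ Z) ∪ S) L
    have h2 : S ⊆ ((X ∩ Z) ∪ S) ∩ L := Finset.subset_inter Finset.subset_union_right hSL
    have h3 := h.mono h2
    omega
  constructor
  · rw [ext_eq h hSL]
    simp
  · intro X e
    rw [ext_eq h hSL, ext_eq h hSL]
    have hm : (X ∩ Z) ∪ S ⊆ (insert e X ∩ Z) ∪ S :=
      Finset.union_subset_union (Finset.inter_subset_inter (Finset.subset_insert _ _) (le_refl _))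
        (le_refl _)
    have h1 := h.mono hm
    have h2 := h.mono (Finset.union_subset_union hm (le_refl L))
    have h3 := hL X
    have h4 := hL (insert e X)
    by_cases hpX : p ∈ X
    · rw [if_pos hpX, if_pos (Finset.mem_insert_of_mem hpX)]
      omega
    · rw [if_neg hpX]
      by_cases hpe : p ∈ insert e X
      · rw [if_pos hpe]; omega
      · rw [if_neg hpe]; omega
  · intro X e
    rw [ext_eq h hSL, ext_eq h hSL]
    have h3 := hL X
    have h4 := hL (insert e X)
    have h5 := hL2 X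
    have h6 := hS X
    have hm : (insert e X ∩ Z) ∪ S ⊆ insert e ((X ∩ Z) ∪ S) := by
      intro x hx
      simp only [mem_union, mem_inter, mem_insert] at hx ⊢
      tauto
    have h1 := (h.mono hm).trans (h.insert_le _ _)
    have hm2 : ((insert e X ∩ Z) ∪ S) ∪ L ⊆ insert e (((X ∩ Z) ∪ S) ∪ L) := by
      intro x hx
      simp only [mem_union, mem_inter, mem_insert] at hx ⊢
      tauto
    have h2 := (h.mono hm2).trans (h.insert_le _ _)
    by_cases hpX : p ∈ X
    · rw [if_pos hpX, if_pos (Finset.mem_insert_of_mem hpX)]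
      omega
    · rw [if_neg hpX]
      by_cases hpe : p ∈ insert e X
      · rw [if_pos hpe]
        have he : e = p := by
          rcases Finset.mem_insert.mp hpe with h' | h'
          · exact h'.symm
          · exact absurd h' hpX
        subst he
        have h7 : insert e X ∩ Z = X ∩ Z := by
          ext x
          simp only [mem_inter, mem_insert]
          constructor
          · rintro ⟨h8 | h8, h9⟩
            · exact absurd (h8 ▸ h9) hpZ
            · exact ⟨h8, h9⟩
          · rintro ⟨h8, h9⟩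
            exact ⟨Or.inr h8, h9⟩
        rw [h7]
        omega
      · rw [if_neg hpe]; omega
  · intro X Y
    rw [ext_eq h hSL, ext_eq h hSL, ext_eq h hSL, ext_eq h hSL]
    have a1 := hL X
    have a2 := hL Y
    have a3 := hL (X ∩ Y)
    have a4 := hL (X ∪ Y)
    have b1 := hS X
    have b2 := hS Y
    have b3 := hS (X ∩ Y)
    have b4 := hS (X ∪ Y)
    have e1 : ((X ∩ Y) ∩ Z) ∪ S = ((X ∩ Z) ∪ S) ∩ ((Y ∩ Z) ∪ S) := by
      ext x; simp only [mem_union, mem_inter]; tauto
    have e2 : ((X ∪ Y) ∩ Z) ∪ S = ((X ∩ Z) ∪ S) ∪ ((Y ∩ Z) ∪ S) := by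
      ext x; simp only [mem_union, mem_inter]; tauto
    rw [e1] at a3 b3 ⊢
    rw [e2] at a4 b4 ⊢
    generalize (X ∩ Z) ∪ S = A at *
    generalize (Y ∩ Z) ∪ S = B at *
    by_cases hpX : p ∈ X
    · by_cases hpY : p ∈ Y
      · rw [if_pos hpX, if_pos hpY, if_pos (Finset.mem_inter.mpr ⟨hpX, hpY⟩),
          if_pos (Finset.mem_union_left _ hpX)]
        have h1 := h.submod (A ∪ L) (B ∪ L)
        have e3 : (A ∪ L) ∩ (B ∪ L) = (A ∩ B) ∪ L := by
          ext x; simp only [mem_union, mem_inter]; tauto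
        have e4 : (A ∪ L) ∪ (B ∪ L) = (A ∪ B) ∪ L := by
          ext x; simp only [mem_union]; tauto
        rw [e3, e4] at h1
        omega
      · rw [if_pos hpX, if_neg hpY, if_neg (fun hh => hpY (Finset.mem_inter.mp hh).2),
          if_pos (Finset.mem_union_left _ hpX)]
        have h1 := h.submod (A ∪ L) B
        have e3 : A ∩ B ⊆ (A ∪ L) ∩ B :=
          Finset.inter_subset_inter Finset.subset_union_left (le_refl _)
        have e4 : (A ∪ L) ∪ B = (A ∪ B) ∪ L := by
          ext x; simp only [mem_union]; tauto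
        have h2 := h.mono e3
        rw [e4] at h1
        omega
    · by_cases hpY : p ∈ Y
      · rw [if_neg hpX, if_pos hpY, if_neg (fun hh => hpX (Finset.mem_inter.mp hh).1),
          if_pos (Finset.mem_union_right _ hpY)]
        have h1 := h.submod A (B ∪ L)
        have e3 : A ∩ B ⊆ A ∩ (B ∪ L) :=
          Finset.inter_subset_inter (le_refl _) Finset.subset_union_left
        have e4 : A ∪ (B ∪ L) = (A ∪ B) ∪ L := by
          ext x; simp only [mem_union]; tauto
        have h2 := h.mono e3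
        rw [e4] at h1
        omega
      · rw [if_neg hpX, if_neg hpY, if_neg (fun hh => hpX (Finset.mem_inter.mp hh).1),
          if_neg (fun hh => (Finset.mem_union.mp hh).elim hpX hpY)]
        have h1 := h.submod A B
        omega

theorem hyp_mem {S T H : Finset α} (hH : H ∈ hyp r S T) :
    S ⊆ H ∧ H ⊆ T ∧ r H + 1 = r T ∧ ∀ e ∈ T, e ∉ H → r (insert e H) = r T := by
  unfold hyp at hH
  rw [Finset.mem_filter, Finset.mem_Icc] at hH
  exact ⟨hH.1.1, hH.1.2, hH.2.1, hH.2.2⟩

theorem hyp_union {S T L H : Finset α} {p d : α} (l : Line r S T L p d) (hH : H ∈ hyp r S T)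
    (hpH : p ∉ H) : r (H ∪ L) = r T := by
  obtain ⟨h1, h2, h3, h4⟩ := hyp_mem hH
  have h5 := h4 p (l.LT l.pL) hpH
  have h6 : insert p H ⊆ H ∪ L := by
    intro x hx
    rcases Finset.mem_insert.mp hx with h | h
    · rw [h]; exact Finset.mem_union_right _ l.pL
    · exact Finset.mem_union_left _ h
  have h7 := l.rk.mono h6
  have h8 := l.rk.mono (Finset.union_subset h2 l.LT)
  omega

theorem ext_rankFn {S T L H : Finset α} {p d : α} (l : Line r S T L p d) (hH : H ∈ hyp r S T)
    (hpH : p ∉ H) : RankFn (ext r S L H p) := by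
  obtain ⟨h1, h2, h3, h4⟩ := hyp_mem hH
  have h5 := hyp_union l hH hpH
  exact ext_rankFn' l.rk l.SL h1 (by rw [l.rL]) hpH (by omega)

theorem insert_inter_self {H : Finset α} {p : α} (hpH : p ∉ H) {X : Finset α} (hX : X ⊆ H) :
    insert p X ∩ H = X := by
  ext x
  simp only [mem_inter, mem_insert]
  constructor
  · rintro ⟨h8 | h8, h9⟩
    · exact absurd (h8 ▸ h9) hpH
    · exact h8
  · intro h8
    exact ⟨Or.inr h8, hX h8⟩

/-- `ext` on subsets of `H`. -/
theorem ext_of_subset (h : RankFn r) {S L H X : Finset α} {p : α} (hpH : p ∉ H) (hSX : S ⊆ X)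
    (hXH : X ⊆ H) : ext r S L H p X + r S = r X := by
  unfold ext
  have hpX : p ∉ X := fun hh => hpH (hXH hh)
  rw [if_neg hpX, Finset.inter_eq_left.mpr hXH, Finset.union_eq_left.mpr hSX]
  have := h.mono hSX
  omega

/-- `ext` on sets containing `p`. -/
theorem ext_insert {S L H X : Finset α} {p : α} (hpH : p ∉ H) (hXH : X ⊆ H) :
    ext r S L H p (insert p X) = r (X ∪ L) - 1 - r S := by
  unfold ext
  rw [if_pos (Finset.mem_insert_self _ _), insert_inter_self hpH hXH]

theorem ext_rank {S T L H : Finset α} {p d : α} (l : Line r S T L p d) (hH : H ∈ hyp r S T)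
    (hpH : p ∉ H) : ext r S L H p (insert p H) + r S + 1 = r T ∧ ext r S L H p S = 0 := by
  obtain ⟨h1, h2, h3, h4⟩ := hyp_mem hH
  have h5 := hyp_union l hH hpH
  have h6 := l.rk.mono l.LT
  have h7 := l.rL
  constructor
  · rw [ext_insert hpH (le_refl H), h5]
    omega
  · have := ext_of_subset (L := L) l.rk hpH (le_refl S) h1
    omega

theorem line_ne {S T L : Finset α} {p d : α} (l : Line r S T L p d) : d ≠ p := by
  intro h
  have h1 := l.rpd
  have h2 := l.rp
  rw [h, Finset.insert_idem] at h1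
  omega

theorem mL_zero {S T L H : Finset α} {p d : α} (l : Line r S T L p d) (hH : H ∈ hyp r S T)
    (hpH : p ∉ H) (hdH : d ∈ H) : mL r S L p H = 0 := by
  obtain ⟨h1, h2, h3, h4⟩ := hyp_mem hH
  have hrk := ext_rankFn l hH hpH
  unfold mL mm w
  have hl : ext r S L H p (insert d (insert p S)) = ext r S L H p (insert p S) := by
    rw [Finset.insert_comm, ext_insert hpH h1,
      ext_insert hpH (Finset.insert_subset hdH h1)]
    have : insert d S ∪ L = S ∪ L := by
      rw [Finset.insert_union, Finset.insert_eq_self.mpr (Finset.mem_union_right _ l.dL)]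
    rw [this]
  have hz := alt_loop (φ := fun X => if ext r S L H p X = ext r S L H p (insert p H) then (1 : ℤ)
      else 0) (S := insert p S) (T := insert p H) (e := d) (Finset.mem_insert_of_mem hdH)
    (fun hh => by
      rcases Finset.mem_insert.mp hh with h' | h'
      · exact line_ne l h'
      · exact l.dS h')
    (fun X hX _ => by
      have := hrk.insert_eq_of_subset hX hl
      simp only [this])
  rw [hz, mul_zero]

theorem bL_nonneg {S T L Z : Finset α} {p d : α} (l : Line r S T L p d)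
    (hZ : Z ∈ zset r S T L) (hpZ : p ∉ Z) : 0 ≤ bL r S L p Z := by
  unfold zset at hZ
  rw [Finset.mem_filter, Finset.mem_Icc] at hZ
  obtain ⟨⟨h1, h2⟩, h3, h4⟩ := hZ
  have hrk : RankFn (ext r S L Z p) :=
    ext_rankFn' l.rk l.SL h1 (by rw [l.rL]) hpZ (by omega)
  unfold bL bb
  refine beta_nonneg hrk _ S (insert p Z) (h1.trans (Finset.subset_insert _ _)) ?_ rfl
  intro hh
  exact l.pS (hh ▸ Finset.mem_insert_self p Z)

end Pool.Agent.Helper73.ST
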