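import Pool.Agent.Helper73.Star.A
import Pool.Agent.Helper73.Star.E1

set_option autoImplicit false

/-! Module C3 of (STAR): `step_three`. -/

namespace Pool.Agent.Helper73.ST

open Finset Pool.Agent.Helper46.FF

variable {α : Type} [Fintype α] [DecidableEq α] {r : Finset α → ℕ}

namespace C3

/-- Hyperplanes of `(M | T) / S` through `Z ⊇ S` are the hyperplanes of `(M | T) / Z`. -/
theorem hyp_filter {S T Z : Finset α} (hSZ : S ⊆ Z) (P : Finset α → Prop) [DecidablePred P] :
    ((hyp r S T).filter P).filter (fun H => Z ⊆ H) = (hyp r Z T).filter P := by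
  ext H
  simp only [hyp, mem_filter, mem_Icc]
  constructor
  · rintro ⟨⟨⟨⟨_, h2⟩, h3⟩, h4⟩, h5⟩
    exact ⟨⟨⟨h5, h2⟩, h3⟩, h4⟩
  · rintro ⟨⟨⟨h5, h2⟩, h3⟩, h4⟩
    exact ⟨⟨⟨⟨hSZ.trans h5, h2⟩, h3⟩, h4⟩, h5⟩

omit [Fintype α] in
/-- The sets `Z` inside `G`. -/
theorem zset_filter {S T L G : Finset α} (hGT : G ⊆ T) :
    zset r S G L = (zset r S T L).filter (fun Z => Z ⊆ G) := by
  ext Z
  simp only [zset, mem_filter, mem_Icc]
  constructor
  · rintro ⟨⟨h1, h2⟩, h3⟩
    exact ⟨⟨⟨h1, h2.trans hGT⟩, h3⟩, h2⟩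
  · rintro ⟨⟨⟨h1, _⟩, h3⟩, h2⟩
    exact ⟨⟨h1, h2⟩, h3⟩

/-- The inequality for one set `Z`. -/
theorem one_set {S T L : Finset α} {p d : α} (l : Line r S T L p d) {R : Finset α → ℤ}
    {Z : Finset α} (hZ : Z ∈ zset r S T L) (hpZ : p ∉ Z) (hdZ : d ∉ Z) (hs : Star r Z T p R) :
    ∑ G ∈ (Icc L T).filter (fun G => Z ⊆ G), bb r Z G * mm r G T * R (T \ G) ≤
      ∑ H ∈ (hyp r Z T).filter (fun H => p ∉ H ∧ d ∉ H), mm r Z H * R (H \ Z) := by
  have h := l.rk
  simp only [zset, mem_filter, mem_Icc] at hZ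
  obtain ⟨⟨hSZ, hZT⟩, hZS, hrZ⟩ := hZ
  -- right side
  have hR : ∑ H ∈ (hyp r Z T).filter (fun H => p ∉ H ∧ d ∉ H), mm r Z H * R (H \ Z) =
      ∑ H ∈ (hyp r Z T).filter (fun H => p ∉ H), mm r Z H * R (H \ Z) := by
    apply sum_subset
    · intro H hH
      simp only [mem_filter] at hH ⊢
      exact ⟨hH.1, hH.2.1⟩
    · intro H hH hH'
      simp only [mem_filter] at hH hH'
      have hd : d ∈ H := by
        by_contra hd
        exact hH' ⟨hH.1, hH.2, hd⟩
      have hHy := hH.1
      simp only [hyp, mem_filter, mem_Icc] at hHy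
      obtain ⟨⟨hZH, hHT⟩, hrH, hcl⟩ := hHy
      by_cases hl : r (insert d Z) = r Z
      · rw [mm_loop h hd hdZ hl, zero_mul]
      · exfalso
        have h0 := h.le_insert Z d
        have h0' := h.insert_le Z d
        have hrd : r (insert d Z) = r Z + 1 := by omega
        have hsub : insert p (insert d Z) ⊆ Z ∪ L := by
          intro x hx
          simp only [mem_insert] at hx
          rcases hx with rfl | rfl | hx
          · exact mem_union_right _ l.pL
          · exact mem_union_right _ l.dL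
          · exact mem_union_left _ hx
        have h1 := h.mono hsub
        have h2 := h.le_insert (insert d Z) p
        have h3 : r (insert p (insert d Z)) = r (insert d Z) := by omega
        have h4 : r (insert p H) = r H :=
          h.insert_eq_of_subset (X := insert d Z) (Y := H)
            (insert_subset hd hZH) h3
        have h5 := hcl p (l.LT l.pL) hH.2
        omega
  rw [hR]
  refine le_trans (le_of_eq ?_) hs
  -- left side
  have hL : ∑ G ∈ (Icc (insert p Z) T).filter (fun G => L ⊆ G), bb r Z G * mm r G T * R (T \ G) =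
      ∑ G ∈ Icc (insert p Z) T, bb r Z G * mm r G T * R (T \ G) := by
    apply sum_filter_of_ne
    intro F hF hne
    simp only [mem_Icc] at hF
    by_contra hLF
    apply hne
    obtain ⟨e, heL, heF⟩ := not_subset.mp hLF
    have hpF : p ∈ F := hF.1 (mem_insert_self _ _)
    have hZF : Z ⊆ F := (subset_insert _ _).trans hF.1
    by_cases hl : r (insert e F) = r F
    · rw [mm_loop h (l.LT heL) heF hl]
      ring
    · by_cases hlp : r (insert p Z) = r Z
      · rw [bb_loop h hpF hpZ hlp]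
        ring
      · exfalso
        apply hl
        have h0 := h.le_insert Z p
        have h0' := h.insert_le Z p
        have hsub : insert e (insert p Z) ⊆ Z ∪ L := by
          intro x hx
          simp only [mem_insert] at hx
          rcases hx with rfl | rfl | hx
          · exact mem_union_right _ heL
          · exact mem_union_right _ l.pL
          · exact mem_union_left _ hx
        have h1 := h.mono hsub
        have h2 := h.le_insert (insert p Z) e
        exact h.insert_eq_of_subset hF.1 (by omega)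
  rw [← hL]
  apply sum_congr _ (fun _ _ => rfl)
  ext G
  simp only [mem_filter, mem_Icc]
  constructor
  · rintro ⟨⟨h1, h2⟩, h3⟩
    exact ⟨⟨insert_subset (h1 l.pL) h3, h2⟩, h1⟩
  · rintro ⟨⟨h1, h2⟩, h3⟩
    exact ⟨⟨h3, h2⟩, (subset_insert _ _).trans h1⟩

end C3

/-- Steps 3b: the contribution of the sets `Z`. -/
theorem step_three {S T L : Finset α} {p d : α} (l : Line r S T L p d) {R : Finset α → ℤ}
    (hs : ∀ Z ∈ zset r S T L, p ∉ Z → d ∉ Z → Star r Z T p R) :
    ∑ G ∈ Icc L T, BB r S L p d G * mm r G T * R (T \ G) ≤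
      ∑ H ∈ (hyp r S T).filter (fun H => p ∉ H ∧ d ∉ H),
        ∑ Z ∈ zset r S H L, bL r S L p Z * mm r Z H * R (H \ Z) := by
  classical
  -- the index set of the sets Z
  set 𝓩 := (zset r S T L).filter (fun Z => p ∉ Z ∧ d ∉ Z) with h𝓩
  have hleft : ∑ G ∈ Icc L T, BB r S L p d G * mm r G T * R (T \ G) =
      ∑ Z ∈ 𝓩, bL r S L p Z *
        ∑ G ∈ (Icc L T).filter (fun G => Z ⊆ G), bb r Z G * mm r G T * R (T \ G) := by
    have e1 : ∀ G ∈ Icc L T, BB r S L p d G * mm r G T * R (T \ G) =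
        ∑ Z ∈ 𝓩, if Z ⊆ G then bL r S L p Z * (bb r Z G * mm r G T * R (T \ G)) else 0 := by
      intro G hG
      rw [mem_Icc] at hG
      rw [BB, C3.zset_filter hG.2, filter_filter, sum_mul, sum_mul, ← sum_filter, h𝓩,
        filter_filter]
      apply sum_congr
      · ext Z
        simp only [mem_filter]
        tauto
      · intro Z _
        ring
    rw [sum_congr rfl e1, sum_comm]
    apply sum_congr rfl
    intro Z _
    rw [mul_sum, sum_filter]
  have hright : ∑ H ∈ (hyp r S T).filter (fun H => p ∉ H ∧ d ∉ H),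
        ∑ Z ∈ zset r S H L, bL r S L p Z * mm r Z H * R (H \ Z) =
      ∑ Z ∈ 𝓩, bL r S L p Z *
        ∑ H ∈ (hyp r Z T).filter (fun H => p ∉ H ∧ d ∉ H), mm r Z H * R (H \ Z) := by
    have e1 : ∀ H ∈ (hyp r S T).filter (fun H => p ∉ H ∧ d ∉ H),
        ∑ Z ∈ zset r S H L, bL r S L p Z * mm r Z H * R (H \ Z) =
        ∑ Z ∈ 𝓩, if Z ⊆ H then bL r S L p Z * (mm r Z H * R (H \ Z)) else 0 := by
      intro H hH
      simp only [mem_filter, hyp, mem_Icc] at hH
      obtain ⟨⟨⟨_, hHT⟩, _⟩, hp, hd⟩ := hH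
      rw [C3.zset_filter hHT, ← sum_filter, h𝓩, filter_filter]
      apply sum_congr
      · ext Z
        simp only [mem_filter]
        constructor
        · rintro ⟨h1, h2⟩
          exact ⟨h1, ⟨fun h => hp (h2 h), fun h => hd (h2 h)⟩, h2⟩
        · rintro ⟨h1, _, h2⟩
          exact ⟨h1, h2⟩
      · intro Z _
        ring
    rw [sum_congr rfl e1, sum_comm]
    apply sum_congr rfl
    intro Z hZ
    have hSZ : S ⊆ Z := by
      simp only [h𝓩, mem_filter, zset, mem_Icc] at hZ
      exact hZ.1.1.1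
    rw [mul_sum, ← C3.hyp_filter hSZ, ← sum_filter]
  rw [hleft, hright]
  apply sum_le_sum
  intro Z hZ
  simp only [h𝓩, mem_filter] at hZ
  exact mul_le_mul_of_nonneg_left (C3.one_set l hZ.1 hZ.2.1 hZ.2.2 (hs Z hZ.1 hZ.2.1 hZ.2.2))
    (bL_nonneg l hZ.1 hZ.2.1)

end Pool.Agent.Helper73.ST
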