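import Pool.Agent.Helper46.FF.RepMin

set_option autoImplicit false

/-! Definitions for the inequality (STAR): a submodular inequality between the measure
`|μ(H)|` on the hyperplanes avoiding a point and the measure `β(F)|μ(N/F)|` on the complements of
the flats through it. A matroid is given by a rank function `r` on `Finset α`; the minor
`(M | T) / S` is given by the pair `S ⊆ T`. -/

namespace Pool.Agent.Helper73.ST

open Finset Pool.Agent.Helper46.FF

variable {α : Type} [Fintype α] [DecidableEq α]

/-- `|μ|` of the minor `(M | T) / S` (zero if the minor has a loop). -/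
def mm (r : Finset α → ℕ) (S T : Finset α) : ℤ := (-1 : ℤ) ^ (r T + r S) * w r S T

/-- The beta invariant of the minor `(M | T) / S`. -/
def bb (r : Finset α → ℕ) (S T : Finset α) : ℤ := (-1 : ℤ) ^ (r T + r S) * c r S T

/-- The hyperplanes of the minor `(M | T) / S`. -/
def hyp (r : Finset α → ℕ) (S T : Finset α) : Finset (Finset α) :=
  (Icc S T).filter fun H => r H + 1 = r T ∧ ∀ e ∈ T, e ∉ H → r (insert e H) = r T

/-- Submodular set functions. -/
def Submod (R : Finset α → ℤ) : Prop := ∀ X Y, R (X ∩ Y) + R (X ∪ Y) ≤ R X + R Y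

/-- The inequality (STAR) for the minor `(M | T) / S`, the element `p` and the function `R`. -/
def Star (r : Finset α → ℕ) (S T : Finset α) (p : α) (R : Finset α → ℤ) : Prop :=
  ∑ F ∈ Icc (insert p S) T, bb r S F * mm r F T * R (T \ F) ≤
    ∑ H ∈ (hyp r S T).filter (fun H => p ∉ H), mm r S H * R (H \ S)

/-- For a line `L` through `p` and a hyperplane `H` avoiding `p`: the rank function (with `S`
contracted) of `H` with the point `p` added at the intersection of `L` with the span of `H`. -/
def ext (r : Finset α → ℕ) (S L H : Finset α) (p : α) (X : Finset α) : ℕ :=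
  (if p ∈ X then r ((X ∩ H) ∪ L) - 1 else r ((X ∩ H) ∪ S)) - r S

/-- The flats `Y` of corank two of `(M | T) / S` skew to the line `L`. -/
def skew (r : Finset α → ℕ) (S T L : Finset α) : Finset (Finset α) :=
  (Icc S T).filter fun Y => r Y + 2 = r T ∧ r (Y ∪ L) = r T ∧
    ∀ e ∈ T, e ∉ Y → r (insert e Y) = r Y + 1

/-- `|μ|` of `(N / L) | H`. -/
def mL (r : Finset α → ℕ) (S L : Finset α) (p : α) (H : Finset α) : ℤ :=
  mm (ext r S L H p) (insert p S) (insert p H)

/-- `β` of `Z + p`. -/
def bL (r : Finset α → ℕ) (S L : Finset α) (p : α) (Z : Finset α) : ℤ :=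
  bb (ext r S L Z p) S (insert p Z)

/-- The data of a line `L` through the points `p` and `d` of the loopless minor `(M | T) / S`. -/
structure Line (r : Finset α → ℕ) (S T L : Finset α) (p d : α) : Prop where
  rk : RankFn r
  SL : S ⊆ L
  LT : L ⊆ T
  pL : p ∈ L
  dL : d ∈ L
  pS : p ∉ S
  dS : d ∉ S
  rL : r L = r S + 2
  rp : r (insert p S) = r S + 1
  rpd : r (insert d (insert p S)) = r S + 2
  flat : ∀ e ∈ T, r (insert e L) = r L → e ∈ L
  loopless : ∀ e ∈ T, e ∉ S → r (insert e S) = r S + 1

/-- The sets `Z` in the second part of the chain inequality. -/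
def zset (r : Finset α → ℕ) (S G L : Finset α) : Finset (Finset α) :=
  (Icc S G).filter fun Z => Z ≠ S ∧ r (Z ∪ L) = r Z + 1

/-- `b_L(G)`. -/
def BB (r : Finset α → ℕ) (S L : Finset α) (p d : α) (G : Finset α) : ℤ :=
  ∑ Z ∈ (zset r S G L).filter (fun Z => p ∉ Z ∧ d ∉ Z), bL r S L p Z * bb r Z G

end Pool.Agent.Helper73.ST
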