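import Pool.Agent.Helper73.Star.A
import Pool.Agent.Helper73.Star.W
import Pool.Agent.Helper73.Star.E1

set_option autoImplicit false

/-! Module E2 of (STAR): Weisner's theorem for `ext`. -/

namespace Pool.Agent.Helper73.ST

open Finset Pool.Agent.Helper46.FF

variable {α : Type} [Fintype α] [DecidableEq α] {r : Finset α → ℕ}

theorem ext_hyp {S T L H : Finset α} {p d : α} (l : Line r S T L p d) (hH : H ∈ hyp r S T)
    (hpH : p ∉ H) :
    (hyp (ext r S L H p) S (insert p H)).filter (fun Y => p ∉ Y) =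
      (skew r S T L).filter (fun Y => Y ⊆ H) := by
  obtain ⟨h1, h2, h3, h4⟩ := hyp_mem hH
  have hrk := ext_rankFn l hH hpH
  obtain ⟨hr1, hr0⟩ := ext_rank l hH hpH
  have h6 := l.rk.mono l.LT
  have h7 := l.rL
  ext Y
  unfold hyp skew
  rw [Finset.mem_filter, Finset.mem_filter, Finset.mem_filter, Finset.mem_filter, Finset.mem_Icc,
    Finset.mem_Icc]
  constructor
  · rintro ⟨⟨⟨hSY, hYpH⟩, hrY, hins⟩, hpY⟩
    have hYH : Y ⊆ H := by
      intro x hx
      rcases Finset.mem_insert.mp (hYpH hx) with h' | h'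
      · exact absurd (h' ▸ hx) hpY
      · exact h'
    have eY := ext_of_subset (L := L) l.rk hpH hSY hYH
    have hYT : Y ⊆ T := hYH.trans h2
    have hrY2 : r Y + 2 = r T := by omega
    refine ⟨⟨⟨hSY, hYT⟩, hrY2, ?_, ?_⟩, hYH⟩
    · have h8 := hins p (Finset.mem_insert_self _ _) hpY
      rw [ext_insert hpH hYH] at h8
      have h9 := l.rk.mono (Finset.union_subset hYT l.LT)
      omega
    · intro e heT heY
      have h8 := l.rk.insert_le Y e
      have h9 := l.rk.le_insert Y e
      by_cases hh : r (insert e Y) = r Y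
      · exfalso
        by_cases heH : e ∈ H
        · have h10 := hins e (Finset.mem_insert_of_mem heH) heY
          have h11 := ext_of_subset (L := L) l.rk hpH (hSY.trans (Finset.subset_insert e Y))
            (Finset.insert_subset heH hYH)
          omega
        · have h10 := l.rk.insert_eq_of_subset hYH hh
          have h11 := h4 e heT heH
          omega
      · omega
  · rintro ⟨⟨⟨hSY, hYT⟩, hrY, hrYL, hins⟩, hYH⟩
    have hpY : p ∉ Y := fun hh => hpH (hYH hh)
    have eY := ext_of_subset (L := L) l.rk hpH hSY hYH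
    refine ⟨⟨⟨hSY, hYH.trans (Finset.subset_insert _ _)⟩, by omega, ?_⟩, hpY⟩
    intro e heH heY
    rcases Finset.mem_insert.mp heH with h' | h'
    · rw [h', ext_insert hpH hYH]
      omega
    · have h11 := ext_of_subset (L := L) l.rk hpH (hSY.trans (Finset.subset_insert e Y))
        (Finset.insert_subset h' hYH)
      have h12 := hins e (h2 h') heY
      omega

theorem ext_mm {S H Y L : Finset α} {p : α} (h : RankFn r) (hpH : p ∉ H) (hSY : S ⊆ Y)
    (hYH : Y ⊆ H) : mm (ext r S L H p) S Y = mm r S Y :=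
  mm_congr (r S) hSY (fun _ hSX hXY => ext_of_subset h hpH hSX (hXY.trans hYH))

theorem ext_weisner {S T L H : Finset α} {p d : α} (l : Line r S T L p d) (hH : H ∈ hyp r S T)
    (hpH : p ∉ H) :
    ∑ Y ∈ (skew r S T L).filter (fun Y => Y ⊆ H), mm r S Y = mm r S H + mL r S L p H := by
  obtain ⟨h1, h2, h3, h4⟩ := hyp_mem hH
  have hrk := ext_rankFn l hH hpH
  obtain ⟨hr1, hr0⟩ := ext_rank l hH hpH
  have h7 := l.rL
  have hw := weisner hrk (h1.trans (Finset.subset_insert p H)) (Finset.mem_insert_self p H) l.pS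
  rw [ext_hyp l hH hpH] at hw
  have eH := ext_of_subset (L := L) l.rk hpH h1 (le_refl H)
  have hd := mm_delcon (r := ext r S L H p) (Finset.mem_insert_self p H) l.pS
    (by rw [Finset.erase_insert hpH]; omega)
    (by
      rw [ext_insert hpH h1, hr0, Finset.union_eq_right.mpr l.SL]
      omega)
  rw [Finset.erase_insert hpH, ext_mm l.rk hpH h1 (le_refl H)] at hd
  rw [hd] at hw
  unfold mL
  rw [← hw]
  apply Finset.sum_congr rfl
  intro Y hY
  rw [Finset.mem_filter] at hY
  have hY' := hY.1
  unfold skew at hY'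
  rw [Finset.mem_filter, Finset.mem_Icc] at hY'
  exact (ext_mm l.rk hpH hY'.1.1 hY.2).symm

end Pool.Agent.Helper73.ST
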