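import Pool.Agent.Helper73.Star.Defs

set_option autoImplicit false

/-! Module E3 of (STAR): `ext_star`. -/

namespace Pool.Agent.Helper73.ST

open Finset Pool.Agent.Helper46.FF

variable {α : Type} [Fintype α] [DecidableEq α] {r : Finset α → ℕ}

namespace E3

theorem sum_Icc_insert (g : Finset α → ℤ) {S T : Finset α} {p : α} (hp : p ∉ T) (hST : S ⊆ T) :
    ∑ F ∈ Icc (insert p S) (insert p T), g F = ∑ Z ∈ Icc S T, g (insert p Z) := by
  have hpS : p ∉ S := fun h => hp (hST h)
  symm
  refine Finset.sum_nbij' (fun Z => insert p Z) (fun F => F.erase p) ?_ ?_ ?_ ?_ ?_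
  · intro Z hZ
    rw [mem_Icc] at hZ ⊢
    exact ⟨insert_subset_insert _ hZ.1, insert_subset_insert _ hZ.2⟩
  · intro F hF
    rw [mem_Icc] at hF ⊢
    refine ⟨?_, ?_⟩
    · intro x hx
      exact mem_erase.2 ⟨fun h => hpS (h ▸ hx), hF.1 (mem_insert_of_mem hx)⟩
    · intro x hx
      rw [mem_erase] at hx
      rcases mem_insert.1 (hF.2 hx.2) with h | h
      · exact absurd h hx.1
      · exact h
  · intro Z hZ
    rw [mem_Icc] at hZ
    exact erase_insert (fun h => hp (hZ.2 h))
  · intro F hF
    rw [mem_Icc] at hF
    exact insert_erase (hF.1 (mem_insert_self _ _))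
  · intro Z _; rfl

theorem alt_insert (φ : Finset α → ℤ) {S T : Finset α} {p : α} (hp : p ∉ T) (hST : S ⊆ T) :
    alt φ (insert p S) (insert p T) = alt (fun X => φ (insert p X)) S T := by
  have hpS : p ∉ S := fun h => hp (hST h)
  unfold alt
  rw [sum_Icc_insert _ hp hST]
  apply sum_congr rfl
  intro Z hZ
  rw [mem_Icc] at hZ
  rw [card_insert_of_notMem (fun h => hp (hZ.2 h)), card_insert_of_notMem hpS]
  have : (-1 : ℤ) ^ (Z.card + 1 + (S.card + 1)) = (-1) ^ (Z.card + S.card) := by
    rw [show Z.card + 1 + (S.card + 1) = (Z.card + S.card) + 2 by ring, pow_add]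
    norm_num
  rw [this]

/-- values of `ext` on sets avoiding `p` -/
theorem ext_of_notMem {S L H X : Finset α} {p : α} (hSX : S ⊆ X) (hXH : X ⊆ H) (hp : p ∉ X) :
    ext r S L H p X = r X - r S := by
  unfold ext
  rw [if_neg hp, inter_eq_left.2 hXH, union_eq_left.2 hSX]

theorem ext_insert {S L H X : Finset α} {p : α} (hXH : X ⊆ H) (hp : p ∉ H) :
    ext r S L H p (insert p X) = r (X ∪ L) - 1 - r S := by
  unfold ext
  rw [if_pos (mem_insert_self _ _), insert_inter_of_notMem hp, inter_eq_left.2 hXH]

theorem mm_shift {r' : Finset α → ℕ} {S T : Finset α} (a : ℕ) (hST : S ⊆ T)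
    (hX : ∀ X, S ⊆ X → X ⊆ T → r' X + a = r X) : mm r' S T = mm r S T := by
  have hS := hX S subset_rfl hST
  have hT := hX T hST subset_rfl
  unfold mm w
  have h1 : alt (fun X => if r' X = r' T then (1 : ℤ) else 0) S T =
      alt (fun X => if r X = r T then (1 : ℤ) else 0) S T := by
    apply alt_congr
    intro X h1 h2
    have := hX X h1 h2
    by_cases h : r' X = r' T
    · rw [if_pos h, if_pos (by omega)]
    · rw [if_neg h, if_neg (by omega)]
  have h2 : (-1 : ℤ) ^ (r T + r S) = (-1) ^ (r' T + r' S) := by
    rw [show r T + r S = (r' T + r' S) + 2 * a by omega, pow_add, pow_mul]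
    norm_num
  rw [h1, h2]

end E3

open E3

/-- The inequality (STAR) for `H + p`. -/
theorem ext_star {S T L H : Finset α} {p d : α} (l : Line r S T L p d) (hH : H ∈ hyp r S T)
    (hpH : p ∉ H) {R : Finset α → ℤ} (hs : Star (ext r S L H p) S (insert p H) p R) :
    mL r S L p H * R (H \ S) + ∑ Z ∈ zset r S H L, bL r S L p Z * mm r Z H * R (H \ Z) ≤
      ∑ Y ∈ (skew r S T L).filter (fun Y => Y ⊆ H), mm r S Y * R (Y \ S) := by
  have hr := l.rk
  obtain ⟨hH1, hH2, hH3⟩ : H ∈ Icc S T ∧ r H + 1 = r T ∧
      ∀ e ∈ T, e ∉ H → r (insert e H) = r T := by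
    simpa [hyp] using hH
  rw [mem_Icc] at hH1
  have hSH : S ⊆ H := hH1.1
  have hHT : H ⊆ T := hH1.2
  have hpT : p ∈ T := l.LT l.pL
  have hrpH : r (insert p H) = r H + 1 := by rw [hH3 p hpT hpH, hH2]
  -- ranks of `insert p X`
  have hrp : ∀ X, X ⊆ H → r (insert p X) = r X + 1 := by
    intro X hX
    have h1 := hr.submod (insert p X) H
    have h2 : insert p X ∩ H = X := by
      rw [insert_inter_of_notMem hpH, inter_eq_left.2 hX]
    have h3 : insert p X ∪ H = insert p H := by
      rw [insert_union, union_eq_right.2 hX]
    rw [h2, h3, hrpH] at h1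
    have h4 := hr.insert_le X p
    omega
  have hlow : ∀ X, X ⊆ H → r X + 1 ≤ r (X ∪ L) := by
    intro X hX
    rw [← hrp X hX]
    apply hr.mono
    intro x hx
    rcases mem_insert.1 hx with h | h
    · rw [h]; exact mem_union_right _ l.pL
    · exact mem_union_left _ h
  have hup : ∀ X Y, S ⊆ X → X ⊆ Y → r (Y ∪ L) + r X ≤ r (X ∪ L) + r Y := by
    intro X Y hX hXY
    have h1 := hr.submod (X ∪ L) Y
    have h2 : X ∪ L ∪ Y = Y ∪ L := by
      rw [union_right_comm, union_eq_right.2 hXY]
    have h3 : X ⊆ (X ∪ L) ∩ Y := subset_inter subset_union_left hXY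
    have h4 := hr.mono h3
    rw [h2] at h1
    omega
  have hSS : ∀ X, S ⊆ X → r S ≤ r X := fun X hX => hr.mono hX
  have hSL : r (S ∪ L) = r S + 2 := by rw [union_eq_right.2 l.SL, l.rL]
  have hHL : r (H ∪ L) = r T := by
    have h1 := hlow H subset_rfl
    have h2 := hr.mono (union_subset hHT l.LT)
    omega
  have eX : ∀ X, S ⊆ X → X ⊆ H → ext r S L H p X + r S = r X := by
    intro X h1 h2
    rw [ext_of_notMem h1 h2 (fun h => hpH (h2 h))]
    have := hSS X h1
    omega
  have hXL : ∀ X, S ⊆ X → r S + 2 ≤ r (X ∪ L) := by
    intro X h1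
    rw [← l.rL]
    exact hr.mono subset_union_right
  have eI : ∀ X, S ⊆ X → X ⊆ H → ext r S L H p (insert p X) + r S + 1 = r (X ∪ L) := by
    intro X h1 h2
    rw [ext_insert h2 hpH]
    have := hXL X h1
    omega
  have eT := eI H hSH subset_rfl
  -- the two sides
  unfold Star at hs
  have eR : ∑ Y ∈ (hyp (ext r S L H p) S (insert p H)).filter (fun Y => p ∉ Y),
      mm (ext r S L H p) S Y * R (Y \ S) =
      ∑ Y ∈ (skew r S T L).filter (fun Y => Y ⊆ H), mm r S Y * R (Y \ S) := by
    have hset : (hyp (ext r S L H p) S (insert p H)).filter (fun Y => p ∉ Y) =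
        (skew r S T L).filter (fun Y => Y ⊆ H) := by
      ext Y
      simp only [hyp, skew, mem_filter, mem_Icc]
      constructor
      · rintro ⟨⟨⟨h1, h2⟩, h3, h4⟩, h5⟩
        have hYH : Y ⊆ H := fun x hx => (mem_insert.1 (h2 hx)).resolve_left (fun h => h5 (h ▸ hx))
        have a1 := eX Y h1 hYH
        have a2 := eI Y h1 hYH
        have a3 := h4 p (mem_insert_self _ _) h5
        refine ⟨⟨⟨h1, hYH.trans hHT⟩, by omega, by omega, ?_⟩, hYH⟩
        intro e heT heY
        by_cases heH : e ∈ H
        · have a4 := h4 e (mem_insert_of_mem heH) heY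
          have a5 := eX (insert e Y) (h1.trans (subset_insert _ _)) (insert_subset heH hYH)
          omega
        · have b1 := hr.submod (insert e Y) H
          have b2 : insert e Y ∩ H = Y := by
            rw [insert_inter_of_notMem heH, inter_eq_left.2 hYH]
          have b3 : insert e Y ∪ H = insert e H := by
            rw [insert_union, union_eq_right.2 hYH]
          have b4 := hH3 e heT heH
          have b5 := hr.insert_le Y e
          rw [b2, b3] at b1
          omega
      · rintro ⟨⟨⟨h1, h2⟩, h3, h4, h5⟩, hYH⟩
        have a1 := eX Y h1 hYH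
        have a2 := eI Y h1 hYH
        refine ⟨⟨⟨h1, hYH.trans (subset_insert _ _)⟩, by omega, ?_⟩, fun h => hpH (hYH h)⟩
        intro e he heY
        rcases mem_insert.1 he with rfl | heH
        · omega
        · have a4 := h5 e (hHT heH) heY
          have a5 := eX (insert e Y) (h1.trans (subset_insert _ _)) (insert_subset heH hYH)
          omega
    rw [hset]
    apply sum_congr rfl
    intro Y hY
    rw [mem_filter] at hY
    have h1 : S ⊆ Y := by
      have := hY.1
      simp only [skew, mem_filter, mem_Icc] at this
      exact this.1.1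
    rw [mm_shift (r S) h1 (fun X hX hXY => eX X hX (hXY.trans hY.2))]
  have eL : ∑ F ∈ Icc (insert p S) (insert p H), bb (ext r S L H p) S F *
      mm (ext r S L H p) F (insert p H) * R (insert p H \ F) =
      mL r S L p H * R (H \ S) + ∑ Z ∈ zset r S H L, bL r S L p Z * mm r Z H * R (H \ Z) := by
    rw [sum_Icc_insert _ hpH hSH]
    have hR : ∀ Z, Z ⊆ H → insert p H \ insert p Z = H \ Z := by
      intro Z _
      ext x
      simp only [mem_sdiff, mem_insert, not_or]
      constructor
      · rintro ⟨h1 | h1, h2, h3⟩
        · exact absurd h1 h2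
        · exact ⟨h1, h3⟩
      · rintro ⟨h1, h2⟩
        exact ⟨Or.inr h1, fun h => hpH (h ▸ h1), h2⟩
    have hSmem : S ∈ Icc S H := by rw [mem_Icc]; exact ⟨subset_rfl, hSH⟩
    rw [← add_sum_erase _ _ hSmem]
    congr 1
    · -- the term `Z = S`
      rw [hR S hSH]
      have h1 : bb (ext r S L H p) S (insert p S) = 1 := by
        have a1 := eX S subset_rfl hSH
        have a2 := eI S subset_rfl hSH
        rw [hSL] at a2
        have a3 : ext r S L H p S = 0 := by omega
        have a4 : ext r S L H p (insert p S) = 1 := by omega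
        unfold bb
        rw [c_eq_alt, alt_split _ (mem_insert_self p S) l.pS, erase_insert l.pS, a3, a4]
        unfold alt
        rw [Icc_self, Icc_self, sum_singleton, sum_singleton]
        have e : ∀ n : ℕ, (-1 : ℤ) ^ (n + n) = 1 := fun n => by
          rw [← two_mul, pow_mul]; norm_num
        simp only [a3, a4, e]
        norm_num
      rw [h1, one_mul]
      rfl
    · have hsub : zset r S H L ⊆ (Icc S H).erase S := by
        intro Z hZ
        simp only [zset, mem_filter] at hZ
        exact mem_erase.2 ⟨hZ.2.1, hZ.1⟩
      rw [← sum_subset hsub]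
      · apply sum_congr rfl
        intro Z hZ
        simp only [zset, mem_filter, mem_Icc] at hZ
        obtain ⟨⟨h1, h2⟩, h3, h4⟩ := hZ
        rw [hR Z h2]
        congr 1
        congr 1
        · -- the beta invariants
          unfold bL bb
          have e1 : ∀ X, X ⊆ insert p Z → ext r S L H p X = ext r S L Z p X := by
            intro X hX
            have : X ∩ H = X ∩ Z := by
              ext x
              simp only [mem_inter]
              constructor
              · rintro ⟨hx, hxH⟩
                rcases mem_insert.1 (hX hx) with h | h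
                · exact absurd (h ▸ hxH) hpH
                · exact ⟨hx, h⟩
              · rintro ⟨hx, hxZ⟩
                exact ⟨hx, h2 hxZ⟩
            unfold ext
            rw [this]
          rw [e1 _ subset_rfl, e1 S (h1.trans (subset_insert _ _))]
          congr 1
          rw [c_eq_alt, c_eq_alt]
          apply alt_congr
          intro X _ hX
          rw [e1 X hX]
        · -- the Moebius invariants
          have e2 : ∀ X, Z ⊆ X → X ⊆ H → ext r S L H p (insert p X) + r S = r X := by
            intro X hX1 hX2
            have b1 := eI X (h1.trans hX1) hX2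
            have b2 := hlow X hX2
            have b3 := hup Z X h1 hX1
            omega
          have e3 := e2 Z subset_rfl h2
          have e4 := e2 H h2 subset_rfl
          unfold mm w
          rw [alt_insert _ hpH h2]
          have e5 : alt (fun X => if ext r S L H p (insert p X) = ext r S L H p (insert p H)
              then (1 : ℤ) else 0) Z H = alt (fun X => if r X = r H then (1 : ℤ) else 0) Z H := by
            apply alt_congr
            intro X hX1 hX2
            have := e2 X hX1 hX2
            by_cases h : ext r S L H p (insert p X) = ext r S L H p (insert p H)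
            · rw [if_pos h, if_pos (by omega)]
            · rw [if_neg h, if_neg (by omega)]
          have e6 : (-1 : ℤ) ^ (r H + r Z) =
              (-1) ^ (ext r S L H p (insert p H) + ext r S L H p (insert p Z)) := by
            rw [show r H + r Z = (ext r S L H p (insert p H) + ext r S L H p (insert p Z)) +
              2 * r S by omega, pow_add, pow_mul]
            norm_num
          rw [e5, e6]
      · intro Z hZ1 hZ2
        rw [mem_erase, mem_Icc] at hZ1
        obtain ⟨h1, h2, h3⟩ := hZ1
        have h4 : r (Z ∪ L) ≠ r Z + 1 := by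
          intro h
          apply hZ2
          simp only [zset, mem_filter, mem_Icc]
          exact ⟨⟨h2, h3⟩, h1, h⟩
        have e1 : ∀ X, S ⊆ X → X ⊆ Z → r (X ∪ L) = r X + 2 := by
          intro X hX1 hX2
          have b1 := hup S X subset_rfl hX1
          have b2 := hup X Z hX1 hX2
          have b3 := hlow Z h3
          have b4 := hup S Z subset_rfl h2
          omega
        have h5 : bb (ext r S L H p) S (insert p Z) = 0 := by
          unfold bb
          have hpZ : p ∉ Z := fun h => hpH (h3 h)
          rw [c_eq_alt, alt_split _ (mem_insert_self p Z) l.pS, erase_insert hpZ,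
            alt_insert _ hpZ h2]
          have e6 : alt (fun X => ((ext r S L H p (insert p X) : ℕ) : ℤ)) S Z =
              alt (fun X => ((ext r S L H p X : ℕ) : ℤ)) S Z + alt (fun _ => (1 : ℤ)) S Z := by
            unfold alt
            rw [← sum_add_distrib]
            apply sum_congr rfl
            intro X hX
            rw [mem_Icc] at hX
            have b1 := eX X hX.1 (hX.2.trans h3)
            have b2 := eI X hX.1 (hX.2.trans h3)
            have b3 := e1 X hX.1 hX.2
            have b4 : ext r S L H p (insert p X) = ext r S L H p X + 1 := by omega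
            simp only [b4]
            push_cast
            ring
          rw [e6, alt_const 1 h2 (Ne.symm h1)]
          ring
        rw [h5, zero_mul, zero_mul]
  rw [eR, eL] at hs
  exact hs

end Pool.Agent.Helper73.ST
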