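import Pool.Agent.Helper73.Star.Defs

set_option autoImplicit false

/-! Module U of (STAR): iterated submodularity and the local step at a corank two flat. -/

namespace Pool.Agent.Helper73.ST

open Finset Pool.Agent.Helper46.FF

variable {α : Type} [Fintype α] [DecidableEq α] {r : Finset α → ℕ}

theorem union_submod {R : Finset α → ℤ} (hR : Submod R) (Y : Finset α) (𝓗 : Finset (Finset α))
    (h1 : ∀ H ∈ 𝓗, Y ⊆ H) (h2 : ∀ H ∈ 𝓗, ∀ H' ∈ 𝓗, H ≠ H' → H ∩ H' = Y) :
    R (Y ∪ 𝓗.biUnion id) + (𝓗.card : ℤ) * R Y ≤ R Y + ∑ H ∈ 𝓗, R H := by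
  induction 𝓗 using Finset.induction_on with
  | empty => simp
  | insert H 𝓕 hH ih =>
    have ih' := ih (fun K hK => h1 K (mem_insert_of_mem hK))
      (fun K hK K' hK' hne => h2 K (mem_insert_of_mem hK) K' (mem_insert_of_mem hK') hne)
    have hYH : Y ⊆ H := h1 H (mem_insert_self _ _)
    have hint : (Y ∪ 𝓕.biUnion id) ∩ H = Y := by
      ext x
      simp only [mem_inter, mem_union, mem_biUnion, id]
      constructor
      · rintro ⟨hx | ⟨K, hK, hxK⟩, hxH⟩
        · exact hx
        · have hne : K ≠ H := fun hh => hH (hh ▸ hK)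
          have := h2 K (mem_insert_of_mem hK) H (mem_insert_self _ _) hne
          rw [← this]
          exact mem_inter.mpr ⟨hxK, hxH⟩
      · intro hx
        exact ⟨Or.inl hx, hYH hx⟩
    have hun : Y ∪ (insert H 𝓕).biUnion id = (Y ∪ 𝓕.biUnion id) ∪ H := by
      rw [biUnion_insert]
      ext x
      simp only [mem_union, id]
      tauto
    have hs := hR (Y ∪ 𝓕.biUnion id) H
    rw [hint] at hs
    rw [hun, sum_insert hH, card_insert_of_notMem hH]
    push_cast
    linarith

/-- Step 2: the hyperplanes through the corank two flat `Y`. -/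
theorem local_step (h : RankFn r) {R : Finset α → ℤ} (hR : Submod R) {S T X Y : Finset α}
    {p d : α} (hX : X ∈ hyp r S T) (hpX : p ∈ X) (hdX : d ∉ X) (hdT : d ∈ T)
    (hY : Y ∈ hyp r S X) (hpY : p ∉ Y) :
    R ((Y \ S) ∪ (T \ X)) +
        ∑ _H ∈ (hyp r Y T).filter (fun H => p ∉ H ∧ d ∉ H), R (Y \ S) ≤
      ∑ H ∈ (hyp r Y T).filter (fun H => p ∉ H), R (H \ S) := by
  classical
  simp only [hyp, mem_filter, mem_Icc] at hX hY
  obtain ⟨⟨hSX, hXT⟩, hXr, hXf⟩ := hX
  obtain ⟨⟨hSY, hYX⟩, hYr, hYf⟩ := hY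
  -- `Y` is a flat of `T`
  have hYflat : ∀ e ∈ T, e ∉ Y → r (insert e Y) = r Y + 1 := by
    intro e heT heY
    by_cases heX : e ∈ X
    · rw [hYf e heX heY, hYr]
    · have h1 := h.insert_le Y e
      have h2 := h.le_insert Y e
      have h3 : r (insert e Y) ≠ r Y := by
        intro hh
        have h4 := h.insert_eq_of_subset hYX hh
        have h5 := hXf e heT heX
        omega
      omega
  -- the members of `hyp r Y T`
  have hmem : ∀ H, H ∈ hyp r Y T ↔ ((Y ⊆ H ∧ H ⊆ T) ∧ r H + 1 = r T ∧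
      ∀ e ∈ T, e ∉ H → r (insert e H) = r T) := by
    intro H
    simp only [hyp, mem_filter, mem_Icc]
  have hXmem : X ∈ hyp r Y T := (hmem X).mpr ⟨⟨hYX, hXT⟩, hXr, hXf⟩
  -- two members sharing an element outside `Y` coincide
  have hsub : ∀ H ∈ hyp r Y T, ∀ H' ∈ hyp r Y T, ∀ e ∈ H, e ∉ Y → e ∈ H' → H ⊆ H' := by
    intro H hH H' hH' e heH heY heH'
    obtain ⟨⟨hYH, hHT⟩, hHr, hHf⟩ := (hmem H).mp hH
    obtain ⟨⟨hYH', hHT'⟩, hHr', hHf'⟩ := (hmem H').mp hH'
    intro f hf
    by_contra hfH'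
    have hre := hYflat e (hHT heH) heY
    have hsubH : insert f (insert e Y) ⊆ H := by
      intro x hx
      rcases mem_insert.mp hx with hx | hx
      · exact hx ▸ hf
      · rcases mem_insert.mp hx with hx | hx
        · exact hx ▸ heH
        · exact hYH hx
    have h1 := h.mono hsubH
    have h2 := h.le_insert (insert e Y) f
    have h3 : r (insert f (insert e Y)) = r (insert e Y) := by omega
    have h4 : insert e Y ⊆ H' := by
      intro x hx
      rcases mem_insert.mp hx with hx | hx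
      · exact hx ▸ heH'
      · exact hYH' hx
    have h5 := h.insert_eq_of_subset h4 h3
    have h6 := hHf' f (hHT hf) hfH'
    omega
  have hint : ∀ H ∈ hyp r Y T, ∀ H' ∈ hyp r Y T, H ≠ H' → H ∩ H' = Y := by
    intro H hH H' hH' hne
    obtain ⟨⟨hYH, -⟩, -, -⟩ := (hmem H).mp hH
    obtain ⟨⟨hYH', -⟩, -, -⟩ := (hmem H').mp hH'
    refine Subset.antisymm ?_ (subset_inter hYH hYH')
    intro e he
    rw [mem_inter] at he
    by_contra heY
    exact hne (Subset.antisymm (hsub H hH H' hH' e he.1 heY he.2)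
      (hsub H' hH' H hH e he.2 heY he.1))
  -- the closure of `insert f Y`
  have hclo : ∀ f ∈ T, f ∉ Y → ∃ H ∈ hyp r Y T, f ∈ H := by
    intro f hf hfY
    have hrf := hYflat f hf hfY
    refine ⟨T.filter (fun e => r (insert e (insert f Y)) = r (insert f Y)), ?_, ?_⟩
    · have hsubY : insert f Y ⊆ T.filter (fun e => r (insert e (insert f Y)) = r (insert f Y)) := by
        intro x hx
        refine mem_filter.mpr ⟨?_, by rw [insert_eq_of_mem hx]⟩
        rcases mem_insert.mp hx with hx | hx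
        · exact hx ▸ hf
        · exact hXT (hYX hx)
      have hrk : r (T.filter (fun e => r (insert e (insert f Y)) = r (insert f Y))) =
          r (insert f Y) := by
        have h1 := h.union_eq (insert f Y)
          (T.filter (fun e => r (insert e (insert f Y)) = r (insert f Y)))
          (fun e he => (mem_filter.mp he).2)
        rwa [union_eq_right.mpr hsubY] at h1
      refine (hmem _).mpr ⟨⟨(subset_insert f Y).trans hsubY, filter_subset _ _⟩, by omega, ?_⟩
      intro e heT he
      have h1 : r (insert e (insert f Y)) ≠ r (insert f Y) := fun hh =>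
        he (mem_filter.mpr ⟨heT, hh⟩)
      have h2 := h.le_insert (insert f Y) e
      have h3 := h.mono (insert_subset_insert e hsubY)
      have h4 := h.insert_le (T.filter (fun e => r (insert e (insert f Y)) = r (insert f Y))) e
      have h5 : r (insert e (T.filter (fun e => r (insert e (insert f Y)) = r (insert f Y)))) ≤
          r T := h.mono (by
            intro x hx
            rcases mem_insert.mp hx with hx | hx
            · exact hx ▸ heT
            · exact (mem_filter.mp hx).1)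
      omega
    · exact mem_filter.mpr ⟨hf, by rw [insert_eq_of_mem (mem_insert_self f Y)]⟩
  set 𝓗 := (hyp r Y T).filter (fun H => p ∉ H) with h𝓗
  -- the union
  have hunion : (Y ∪ 𝓗.biUnion id) \ S = (Y \ S) ∪ (T \ X) := by
    ext x
    simp only [mem_sdiff, mem_union, mem_biUnion, id, h𝓗, mem_filter]
    constructor
    · rintro ⟨hx | ⟨H, ⟨hH, hpH⟩, hxH⟩, hxS⟩
      · exact Or.inl ⟨hx, hxS⟩
      · by_cases hxY : x ∈ Y
        · exact Or.inl ⟨hxY, hxS⟩
        · right
          obtain ⟨⟨-, hHT⟩, -, -⟩ := (hmem H).mp hH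
          refine ⟨hHT hxH, fun hxX => hxY ?_⟩
          have hne : H ≠ X := fun hh => hpH (hh ▸ hpX)
          rw [← hint H hH X hXmem hne]
          exact mem_inter.mpr ⟨hxH, hxX⟩
    · rintro (⟨hx, hxS⟩ | ⟨hxT, hxX⟩)
      · exact ⟨Or.inl hx, hxS⟩
      · refine ⟨Or.inr ?_, fun hxS => hxX (hSX hxS)⟩
        have hxY : x ∉ Y := fun hh => hxX (hYX hh)
        obtain ⟨H, hH, hxH⟩ := hclo x hxT hxY
        refine ⟨H, ⟨hH, fun hpH => ?_⟩, hxH⟩
        exact hxX (hsub H hH X hXmem p hpH hpY hpX hxH)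
  -- the unique member containing `d`
  have hdY : d ∉ Y := fun hh => hdX (hYX hh)
  obtain ⟨D, hD, hdD⟩ := hclo d hdT hdY
  have hpD : p ∉ D := fun hpD => hdX (hsub D hD X hXmem p hpD hpY hpX hdD)
  have hsplit : 𝓗 = insert D ((hyp r Y T).filter (fun H => p ∉ H ∧ d ∉ H)) := by
    ext H
    simp only [h𝓗, mem_filter, mem_insert]
    constructor
    · rintro ⟨hH, hpH⟩
      by_cases hdH : d ∈ H
      · left
        exact Subset.antisymm (hsub H hH D hD d hdH hdY hdD) (hsub D hD H hH d hdD hdY hdH)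
      · exact Or.inr ⟨hH, hpH, hdH⟩
    · rintro (hH | ⟨hH, hpH, -⟩)
      · exact hH ▸ ⟨hD, hpD⟩
      · exact ⟨hH, hpH⟩
  have hDnot : D ∉ (hyp r Y T).filter (fun H => p ∉ H ∧ d ∉ H) := by
    simp only [mem_filter, not_and, not_not]
    intro _ _
    exact hdD
  have hcard : (𝓗.card : ℤ) =
      (((hyp r Y T).filter (fun H => p ∉ H ∧ d ∉ H)).card : ℤ) + 1 := by
    rw [hsplit, card_insert_of_notMem hDnot]
    push_cast
    ring
  have hR' : Submod (fun A => R (A \ S)) := by
    intro A B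
    have h1 : (A ∩ B) \ S = (A \ S) ∩ (B \ S) := by
      ext x; simp only [mem_sdiff, mem_inter]; tauto
    have h2 : (A ∪ B) \ S = (A \ S) ∪ (B \ S) := by
      ext x; simp only [mem_sdiff, mem_union]; tauto
    show R ((A ∩ B) \ S) + R ((A ∪ B) \ S) ≤ R (A \ S) + R (B \ S)
    rw [h1, h2]
    exact hR _ _
  have hmain := union_submod hR' Y 𝓗
    (fun H hH => ((hmem H).mp (mem_filter.mp hH).1).1.1)
    (fun H hH H' hH' hne => hint H (mem_filter.mp hH).1 H' (mem_filter.mp hH').1 hne)
  rw [hunion, hcard] at hmain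
  rw [sum_const, nsmul_eq_mul]
  linarith

end Pool.Agent.Helper73.ST
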