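import Pool.Agent.Helper73.Star.A
import Pool.Agent.Helper73.Star.B
import Pool.Agent.Helper73.Star.C1
import Pool.Agent.Helper73.Star.C2
import Pool.Agent.Helper73.Star.C3
import Pool.Agent.Helper73.Star.E1
import Pool.Agent.Helper73.Star.E2
import Pool.Agent.Helper73.Star.E3
import Pool.Agent.Helper73.Star.U
import Pool.Agent.Helper73.Star.W

set_option autoImplicit false
set_option linter.unusedSectionVars false

namespace Pool.Agent.Helper73.ST.F1

open Finset Pool.Agent.Helper46.FF Pool.Agent.Helper73.ST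

variable {α : Type} [Fintype α] [DecidableEq α] {r : Finset α → ℕ}

theorem mem_hyp {r : Finset α → ℕ} {S T H : Finset α} :
    H ∈ hyp r S T ↔ (S ⊆ H ∧ H ⊆ T) ∧ r H + 1 = r T ∧ ∀ e ∈ T, e ∉ H → r (insert e H) = r T := by
  unfold hyp; rw [Finset.mem_filter, Finset.mem_Icc]

theorem mem_zset {r : Finset α → ℕ} {S G L Z : Finset α} :
    Z ∈ zset r S G L ↔ (S ⊆ Z ∧ Z ⊆ G) ∧ Z ≠ S ∧ r (Z ∪ L) = r Z + 1 := by
  unfold zset; rw [Finset.mem_filter, Finset.mem_Icc]

theorem mem_skew {r : Finset α → ℕ} {S T L Y : Finset α} :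
    Y ∈ skew r S T L ↔ (S ⊆ Y ∧ Y ⊆ T) ∧ r Y + 2 = r T ∧ r (Y ∪ L) = r T ∧
      ∀ e ∈ T, e ∉ Y → r (insert e Y) = r Y + 1 := by
  unfold skew; rw [Finset.mem_filter, Finset.mem_Icc]

theorem submod_shift {R : Finset α → ℤ} (hR : Submod R) (D : Finset α) :
    Submod (fun A => R (A ∪ D)) := by
  intro X Y
  have h := hR (X ∪ D) (Y ∪ D)
  have h1 : (X ∪ D) ∩ (Y ∪ D) = X ∩ Y ∪ D := by
    ext a; simp only [mem_inter, mem_union]; tauto
  have h2 : (X ∪ D) ∪ (Y ∪ D) = X ∪ Y ∪ D := by
    ext a; simp only [mem_union]; tauto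
  rw [h1, h2] at h
  exact h

/-- The induction hypothesis. -/
def IH (r : Finset α → ℕ) (S T : Finset α) : Prop :=
  ∀ (r' : Finset α → ℕ) (S' T' : Finset α) (p' : α) (R' : Finset α → ℤ), RankFn r' → S' ⊆ T' →
    p' ∈ T' → p' ∉ S' → Submod R' → r' T' + r S < r T + r' S' → Star r' S' T' p' R'

/-- The chain inequality. -/
theorem chain {S T L : Finset α} {p d : α} (l : Line r S T L p d) {R : Finset α → ℤ}
    (hR : Submod R) (ih : IH r S T) :
    ∑ F ∈ (Icc (insert p S) T).filter (fun F => d ∉ F), bb r S F * mm r F T * R (T \ F) +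
        ∑ G ∈ Icc L T, BB r S L p d G * mm r G T * R (T \ G) ≤
      ∑ H ∈ (hyp r S T).filter (fun H => p ∉ H), mm r S H * R (H \ S) := by
  classical
  have hpT : p ∈ T := l.LT l.pL
  have hdT : d ∈ T := l.LT l.dL
  -- step one
  have s1 := step_one l (R := R) (by
    intro X hX hpX hdX
    have hX' := mem_hyp.mp hX
    refine ih r S X p _ l.rk hX'.1.1 hpX l.pS (submod_shift hR _) ?_
    have := hX'.2.1
    omega)
  -- step two
  have s2 : ∑ X ∈ (hyp r S T).filter (fun X => p ∈ X ∧ d ∉ X),
        ∑ Y ∈ (hyp r S X).filter (fun Y => p ∉ Y), mm r S Y * R ((Y \ S) ∪ (T \ X)) ≤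
      ∑ X ∈ (hyp r S T).filter (fun X => p ∈ X ∧ d ∉ X),
        ∑ Y ∈ (hyp r S X).filter (fun Y => p ∉ Y),
          mm r S Y * (∑ H ∈ (hyp r Y T).filter (fun H => p ∉ H), R (H \ S) -
            ∑ _H ∈ (hyp r Y T).filter (fun H => p ∉ H ∧ d ∉ H), R (Y \ S)) := by
    apply Finset.sum_le_sum
    intro X hX
    apply Finset.sum_le_sum
    intro Y hY
    rw [Finset.mem_filter] at hX hY
    have hY' := mem_hyp.mp hY.1
    apply mul_le_mul_of_nonneg_left _ (mm_nonneg l.rk hY'.1.1)
    have := local_step l.rk hR hX.1 hX.2.1 hX.2.2 hdT hY.1 hY.2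
    linarith
  rw [sum_skew l (fun Y => mm r S Y * (∑ H ∈ (hyp r Y T).filter (fun H => p ∉ H), R (H \ S) -
            ∑ _H ∈ (hyp r Y T).filter (fun H => p ∉ H ∧ d ∉ H), R (Y \ S)))] at s2
  have e1 : ∑ Y ∈ skew r S T L, mm r S Y *
        (∑ H ∈ (hyp r Y T).filter (fun H => p ∉ H), R (H \ S) -
            ∑ _H ∈ (hyp r Y T).filter (fun H => p ∉ H ∧ d ∉ H), R (Y \ S)) =
      ∑ Y ∈ skew r S T L, ∑ H ∈ (hyp r Y T).filter (fun H => p ∉ H), mm r S Y * R (H \ S) -
      ∑ Y ∈ skew r S T L, ∑ H ∈ (hyp r Y T).filter (fun H => p ∉ H ∧ d ∉ H),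
        mm r S Y * R (Y \ S) := by
    rw [← Finset.sum_sub_distrib]
    apply Finset.sum_congr rfl
    intro Y _
    rw [mul_sub, Finset.mul_sum, Finset.mul_sum]
  rw [e1, sum_exchange l (fun H => p ∉ H) (fun Y H => mm r S Y * R (H \ S)),
    sum_exchange l (fun H => p ∉ H ∧ d ∉ H) (fun Y _ => mm r S Y * R (Y \ S))] at s2
  have e2 : ∑ H ∈ (hyp r S T).filter (fun H => p ∉ H),
        ∑ Y ∈ (skew r S T L).filter (fun Y => Y ⊆ H), mm r S Y * R (H \ S) =
      ∑ H ∈ (hyp r S T).filter (fun H => p ∉ H), mm r S H * R (H \ S) +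
      ∑ H ∈ (hyp r S T).filter (fun H => p ∉ H), mL r S L p H * R (H \ S) := by
    rw [← Finset.sum_add_distrib]
    apply Finset.sum_congr rfl
    intro H hH
    rw [Finset.mem_filter] at hH
    rw [← Finset.sum_mul, ext_weisner l hH.1 hH.2, add_mul]
  have e3 : ∑ H ∈ (hyp r S T).filter (fun H => p ∉ H), mL r S L p H * R (H \ S) =
      ∑ H ∈ (hyp r S T).filter (fun H => p ∉ H ∧ d ∉ H), mL r S L p H * R (H \ S) := by
    symm
    apply Finset.sum_subset
    · intro H hH
      rw [Finset.mem_filter] at hH ⊢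
      exact ⟨hH.1, hH.2.1⟩
    · intro H hH hH2
      rw [Finset.mem_filter] at hH hH2
      have hdH : d ∈ H := by
        by_contra hcon
        exact hH2 ⟨hH.1, hH.2, hcon⟩
      rw [mL_zero l hH.1 hH.2 hdH, zero_mul]
  -- step three
  have s3 : ∑ H ∈ (hyp r S T).filter (fun H => p ∉ H ∧ d ∉ H),
        (mL r S L p H * R (H \ S) + ∑ Z ∈ zset r S H L, bL r S L p Z * mm r Z H * R (H \ Z)) ≤
      ∑ H ∈ (hyp r S T).filter (fun H => p ∉ H ∧ d ∉ H),
        ∑ Y ∈ (skew r S T L).filter (fun Y => Y ⊆ H), mm r S Y * R (Y \ S) := by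
    apply Finset.sum_le_sum
    intro H hH
    rw [Finset.mem_filter] at hH
    have hH' := mem_hyp.mp hH.1
    have hr := ext_rank l hH.1 hH.2.1
    apply ext_star l hH.1 hH.2.1
    refine ih _ S (insert p H) p R (ext_rankFn l hH.1 hH.2.1)
      (hH'.1.1.trans (Finset.subset_insert _ _)) (Finset.mem_insert_self _ _) l.pS hR ?_
    rw [hr.2]
    omega
  rw [Finset.sum_add_distrib] at s3
  have s4 := step_three l (R := R) (by
    intro Z hZ hpZ hdZ
    have hZ' := mem_zset.mp hZ
    refine ih r Z T p R l.rk hZ'.1.2 hpT hpZ hR ?_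
    obtain ⟨e, heZ, heS⟩ := Finset.exists_of_ssubset
      (lt_of_le_of_ne hZ'.1.1 (fun hh => hZ'.2.1 hh.symm))
    have h1 := l.loopless e (hZ'.1.2 heZ) heS
    have h2 := l.rk.mono (Finset.insert_subset heZ hZ'.1.1)
    omega)
  linarith

theorem line_sub {S T T' L : Finset α} {p d : α} (l : Line r S T L p d) (hL : L ⊆ T')
    (hT : T' ⊆ T) : Line r S T' L p d where
  rk := l.rk
  SL := l.SL
  LT := hL
  pL := l.pL
  dL := l.dL
  pS := l.pS
  dS := l.dS
  rL := l.rL
  rp := l.rp
  rpd := l.rpd
  flat := fun e he => l.flat e (hT he)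
  loopless := fun e he => l.loopless e (hT he)

/-- Terms of the sum over `F ∋ p, d`. -/
theorem sum_line {S T L : Finset α} {p d : α} (l : Line r S T L p d) (f : Finset α → ℤ) :
    ∑ F ∈ Icc (insert p S) T, bb r S F * mm r F T * f F =
      ∑ F ∈ (Icc (insert p S) T).filter (fun F => d ∉ F), bb r S F * mm r F T * f F +
        ∑ G ∈ Icc L T, bb r S G * mm r G T * f G := by
  classical
  rw [← Finset.sum_filter_add_sum_filter_not (Icc (insert p S) T) (fun F => d ∉ F)]
  congr 1
  symm
  apply Finset.sum_subset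
  · intro G hG
    rw [Finset.mem_Icc] at hG
    rw [Finset.mem_filter, Finset.mem_Icc]
    exact ⟨⟨Finset.insert_subset (hG.1 l.pL) (l.SL.trans hG.1), hG.2⟩, fun hh => hh (hG.1 l.dL)⟩
  · intro F hF hF2
    rw [Finset.mem_filter, Finset.mem_Icc] at hF
    rw [Finset.mem_Icc] at hF2
    have hdF : d ∈ F := by
      by_contra hcon; exact hF.2 hcon
    have hLF : ¬ L ⊆ F := fun hh => hF2 ⟨hh, hF.1.2⟩
    obtain ⟨e, heL, heF⟩ := Finset.not_subset.mp hLF
    have h1 : r (insert e (insert d (insert p S))) = r (insert d (insert p S)) := by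
      have h2 : insert e (insert d (insert p S)) ⊆ L :=
        Finset.insert_subset heL (Finset.insert_subset l.dL (Finset.insert_subset l.pL l.SL))
      have h3 := l.rk.mono h2
      have h4 := l.rk.le_insert (insert d (insert p S)) e
      rw [l.rL] at h3
      rw [l.rpd] at h4 ⊢
      omega
    have h2 : r (insert e F) = r F := l.rk.insert_eq_of_subset
      (Finset.insert_subset hdF hF.1.1) h1
    rw [mm_loop l.rk (l.LT heL) heF h2]
    ring

theorem submod_const (a : ℤ) : Submod (fun _ : Finset α => a) := fun _ _ => le_refl _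

theorem IH.sub {S T G : Finset α} (h : RankFn r) (ih : IH r S T) (hG : G ⊆ T) : IH r S G := by
  intro r' S' T' p' R' h1 h2 h3 h4 h5 h6
  refine ih r' S' T' p' R' h1 h2 h3 h4 h5 ?_
  have := h.mono hG
  omega

theorem BB_eq_aux (n : ℕ) : ∀ {S T L : Finset α} {p d : α} (_ : Line r S T L p d) (_ : IH r S T),
    T.card = n → BB r S L p d T = bb r S T := by
  induction n using Nat.strong_induction_on with
  | _ n ihn =>
    intro S T L p d l ih hn
    classical
    have hpT : p ∈ T := l.LT l.pL
    have hST : S ⊆ T := l.SL.trans l.LT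
    have c1 := chain l (submod_const 1) ih
    have c2 := chain l (submod_const (-1)) ih
    have w1 := weisner l.rk hST hpT l.pS
    have b1 := beta_mu l.rk hST hpT l.pS
    have s1 := sum_line l (fun _ => 1)
    simp only [mul_one, mul_neg, Finset.sum_neg_distrib] at c1 c2 s1
    rw [w1] at c1 c2
    rw [b1] at s1
    have key : ∑ G ∈ Icc L T, BB r S L p d G * mm r G T = ∑ G ∈ Icc L T, bb r S G * mm r G T := by
      linarith
    have hT : T ∈ Icc L T := Finset.mem_Icc.mpr ⟨l.LT, le_refl _⟩
    rw [← Finset.add_sum_erase _ _ hT, ← Finset.add_sum_erase _ _ hT, mm_self] at key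
    have key2 : ∑ G ∈ (Icc L T).erase T, BB r S L p d G * mm r G T =
        ∑ G ∈ (Icc L T).erase T, bb r S G * mm r G T := by
      apply Finset.sum_congr rfl
      intro G hG
      rw [Finset.mem_erase, Finset.mem_Icc] at hG
      rw [ihn G.card (by
        rw [← hn]
        exact Finset.card_lt_card (lt_of_le_of_ne hG.2.2 hG.1)) (line_sub l hG.2.1 hG.2.2)
        (IH.sub l.rk ih hG.2.2) rfl]
    rw [key2] at key
    linarith

theorem BB_eq {S T L : Finset α} {p d : α} (l : Line r S T L p d) (ih : IH r S T) :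
    BB r S L p d T = bb r S T := BB_eq_aux T.card l ih rfl

theorem star_of_line {S T L : Finset α} {p d : α} (l : Line r S T L p d) {R : Finset α → ℤ}
    (hR : Submod R) (ih : IH r S T) : Star r S T p R := by
  have h1 := chain l hR ih
  unfold Star
  rw [sum_line l]
  have h2 : ∑ G ∈ Icc L T, BB r S L p d G * mm r G T * R (T \ G) =
      ∑ G ∈ Icc L T, bb r S G * mm r G T * R (T \ G) := by
    apply Finset.sum_congr rfl
    intro G hG
    rw [Finset.mem_Icc] at hG
    rw [BB_eq (line_sub l hG.1 hG.2) (IH.sub l.rk ih hG.2)]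
  rw [h2] at h1
  exact h1

/-- Minors with loops. -/
theorem star_of_loop (h : RankFn r) {S T : Finset α} {p : α} {R : Finset α → ℤ} {e : α}
    (heT : e ∈ T) (heS : e ∉ S) (hl : r (insert e S) = r S) : Star r S T p R := by
  unfold Star
  rw [Finset.sum_eq_zero, Finset.sum_eq_zero]
  · intro H hH
    rw [Finset.mem_filter] at hH
    have hH' := mem_hyp.mp hH.1
    have h1 : r (insert e H) = r H := h.insert_eq_of_subset hH'.1.1 hl
    have heH : e ∈ H := by
      by_contra hcon
      have := hH'.2.2 e heT hcon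
      omega
    rw [mm_loop h heH heS hl, zero_mul]
  · intro F hF
    rw [Finset.mem_Icc] at hF
    have hSF : S ⊆ F := (Finset.subset_insert _ _).trans hF.1
    by_cases heF : e ∈ F
    · rw [bb_loop h heF heS hl]; ring
    · rw [mm_loop h heT heF (h.insert_eq_of_subset hSF hl)]; ring

/-- Rank one. -/
theorem star_rank_one (h : RankFn r) {S T : Finset α} (hST : S ⊆ T) {p : α} (hp : p ∈ T)
    (hpS : p ∉ S) {R : Finset α → ℤ} (hl : ∀ e ∈ T, e ∉ S → r (insert e S) = r S + 1)
    (h1 : r T = r S + 1) : Star r S T p R := by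
  classical
  have hw := weisner h hST hp hpS
  have hb := beta_mu h hST hp hpS
  have hH : (hyp r S T).filter (fun H => p ∉ H) = {S} := by
    ext H
    rw [Finset.mem_filter, mem_hyp, Finset.mem_singleton]
    constructor
    · rintro ⟨⟨⟨hSH, hHT⟩, hr, _⟩, _⟩
      by_contra hne
      obtain ⟨e, heH, heS⟩ := Finset.exists_of_ssubset (lt_of_le_of_ne hSH (fun hh => hne hh.symm))
      have h2 := hl e (hHT heH) heS
      have h3 := h.mono (Finset.insert_subset heH hSH)
      omega
    · rintro rfl
      exact ⟨⟨⟨le_refl _, hST⟩, h1.symm, fun e he heS => by rw [hl e he heS, h1]⟩, hpS⟩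
  have hF : ∀ F ∈ Icc (insert p S) T, F ≠ T → mm r F T = 0 := by
    intro F hF hne
    rw [Finset.mem_Icc] at hF
    obtain ⟨e, heT, heF⟩ := Finset.exists_of_ssubset (lt_of_le_of_ne hF.2 hne)
    have h2 := h.mono hF.1
    have h3 := h.mono (Finset.insert_subset heT hF.2)
    have h4 := h.le_insert F e
    have h5 := hl p hp hpS
    exact mm_loop h heT heF (by omega)
  have hT : T ∈ Icc (insert p S) T := Finset.mem_Icc.mpr ⟨Finset.insert_subset hp hST, le_refl _⟩
  unfold Star
  rw [hH, Finset.sum_singleton, Finset.sdiff_self]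
  rw [hH, Finset.sum_singleton] at hw
  rw [Finset.sum_eq_single_of_mem T hT (fun F hF1 hF2 => by rw [hF F hF1 hF2]; ring)] at hb ⊢
  rw [Finset.sdiff_self, hb, hw]

/-- The main theorem. -/
theorem star_aux (n : ℕ) : ∀ {α : Type} [Fintype α] [DecidableEq α] {r : Finset α → ℕ}
    (_ : RankFn r) {S T : Finset α} (_ : S ⊆ T) {p : α} (_ : p ∈ T) (_ : p ∉ S)
    {R : Finset α → ℤ} (_ : Submod R), r T = r S + n → Star r S T p R := by
  induction n using Nat.strong_induction_on with
  | _ n ihn =>
    intro α _ _ r h S T hST p hp hpS R hR hn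
    by_cases hl : ∀ e ∈ T, e ∉ S → r (insert e S) = r S + 1
    · have hp1 := hl p hp hpS
      have hp2 := h.mono (Finset.insert_subset hp hST)
      rcases Nat.lt_or_ge n 2 with hn2 | hn2
      · exact star_rank_one h hST hp hpS hl (by omega)
      · -- choose `d`
        obtain ⟨d, hdT, hd⟩ : ∃ d ∈ T, r (insert d (insert p S)) = r S + 2 := by
          by_contra hcon
          push Not at hcon
          have h1 : ∀ e ∈ T, r (insert e (insert p S)) = r (insert p S) := by
            intro e he
            have h2 := hcon e he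
            have h3 := h.le_insert (insert p S) e
            have h4 := h.insert_le (insert p S) e
            omega
          have h2 := h.union_eq (insert p S) T h1
          have h3 : insert p S ∪ T = T :=
            Finset.union_eq_right.mpr (Finset.insert_subset hp hST)
          rw [h3] at h2
          omega
        let L := T.filter (fun e => r (insert e (insert d (insert p S))) = r S + 2)
        have hmem : ∀ e, e ∈ L ↔ e ∈ T ∧ r (insert e (insert d (insert p S))) = r S + 2 := by
          intro e; exact Finset.mem_filter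
        have hsub : insert d (insert p S) ⊆ L := by
          intro e he
          rw [hmem]
          refine ⟨?_, ?_⟩
          · exact (Finset.insert_subset hdT (Finset.insert_subset hp hST)) he
          · rw [Finset.insert_eq_of_mem he, hd]
        have hrL : r L = r S + 2 := by
          have h2 := h.union_eq (insert d (insert p S)) L (fun e he => by
            rw [((hmem e).mp he).2, hd])
          rw [Finset.union_eq_right.mpr hsub] at h2
          omega
        have hdS : d ∉ S := by
          intro hh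
          have : insert d (insert p S) = insert p S :=
            Finset.insert_eq_of_mem (Finset.mem_insert_of_mem hh)
          rw [this] at hd
          omega
        have l : Line r S T L p d :=
          { rk := h
            SL := fun e he => hsub (Finset.mem_insert_of_mem (Finset.mem_insert_of_mem he))
            LT := Finset.filter_subset _ _
            pL := hsub (Finset.mem_insert_of_mem (Finset.mem_insert_self _ _))
            dL := hsub (Finset.mem_insert_self _ _)
            pS := hpS
            dS := hdS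
            rL := hrL
            rp := hp1
            rpd := hd
            flat := by
              intro e he heq
              rw [hmem]
              refine ⟨he, ?_⟩
              have h2 := h.mono (Finset.insert_subset_insert e hsub)
              have h3 := h.le_insert (insert d (insert p S)) e
              omega
            loopless := hl }
        refine star_of_line l hR ?_
        intro r' S' T' p' R' h1 h2 h3 h4 h5 h6
        have h7 := h1.mono h2
        exact ihn (r' T' - r' S') (by omega) h1 h2 h3 h4 h5 (by omega)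
    · push Not at hl
      obtain ⟨e, heT, heS, hne⟩ := hl
      have h1 := h.le_insert S e
      have h2 := h.insert_le S e
      exact star_of_loop h heT heS (by omega)

theorem star (h : RankFn r) {S T : Finset α} (hST : S ⊆ T) {p : α} (hp : p ∈ T) (hpS : p ∉ S)
    {R : Finset α → ℤ} (hR : Submod R) : Star r S T p R := by
  have h1 := h.mono hST
  exact star_aux (r T - r S) h hST hp hpS hR (by omega)

end Pool.Agent.Helper73.ST.F1
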