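import Pool.Agent.Helper73.Star.F1

set_option autoImplicit false
set_option linter.unusedSectionVars false

namespace Pool.Agent.Helper73.ST.F2

open Finset Pool.Agent.Helper46.FF Pool.Agent.Helper73.ST Pool.Agent.Helper73.ST.F1

variable {α : Type} [Fintype α] [DecidableEq α] {r : Finset α → ℕ}

theorem submod_rank (h : RankFn r) (S : Finset α) : Submod (fun A => (r (A ∪ S) : ℤ)) := by
  intro X Y
  have h1 := h.submod (X ∪ S) (Y ∪ S)
  have h2 : (X ∪ S) ∩ (Y ∪ S) = X ∩ Y ∪ S := by
    ext a; simp only [mem_inter, mem_union]; tauto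
  have h3 : (X ∪ S) ∪ (Y ∪ S) = X ∪ Y ∪ S := by
    ext a; simp only [mem_union]; tauto
  rw [h2, h3] at h1
  simp only
  exact_mod_cast h1

theorem MUI_all (h : RankFn r) {S T : Finset α} (hST : S ⊆ T) (hlt : r S < r T)
    (hRd : RoundI r S T) : MUI r S T := by
  classical
  obtain ⟨p, hpT, hp⟩ : ∃ p ∈ T, r (insert p S) ≠ r S := by
    by_contra hcon
    push Not at hcon
    have h1 := h.union_eq S T hcon
    rw [Finset.union_eq_right.mpr hST] at h1
    omega
  have hpS : p ∉ S := fun hh => hp (by rw [Finset.insert_eq_of_mem hh])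
  have hs := F1.star h hST hpT hpS (submod_rank h S)
  have hw := weisner h hST hpT hpS
  have hb := beta_mu h hST hpT hpS
  unfold Star at hs
  simp only at hs
  -- right-hand side
  have e1 : ∑ H ∈ (hyp r S T).filter (fun H => p ∉ H), mm r S H * ((r (H \ S ∪ S) : ℕ) : ℤ) =
      mm r S T * ((r T : ℤ) - 1) := by
    rw [← hw, Finset.sum_mul]
    apply Finset.sum_congr rfl
    intro H hH
    rw [Finset.mem_filter] at hH
    have hH' := mem_hyp.mp hH.1
    rw [Finset.sdiff_union_of_subset hH'.1.1]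
    have h1 : (r T : ℤ) = r H + 1 := by exact_mod_cast hH'.2.1.symm
    rw [h1]; ring
  -- left-hand side
  have hT : T ∈ Icc (insert p S) T := Finset.mem_Icc.mpr ⟨Finset.insert_subset hpT hST, le_refl _⟩
  have e2 : ∑ F ∈ Icc (insert p S) T, bb r S F * mm r F T * ((r (T \ F ∪ S) : ℕ) : ℤ) =
      ∑ F ∈ Icc (insert p S) T, bb r S F * mm r F T * (r T : ℤ) +
        bb r S T * ((r S : ℤ) - r T) := by
    rw [← Finset.add_sum_erase _ _ hT, ← Finset.add_sum_erase _ (fun F => bb r S F * mm r F T *
      (r T : ℤ)) hT]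
    have h1 : ∑ F ∈ (Icc (insert p S) T).erase T, bb r S F * mm r F T *
          ((r (T \ F ∪ S) : ℕ) : ℤ) =
        ∑ F ∈ (Icc (insert p S) T).erase T, bb r S F * mm r F T * (r T : ℤ) := by
      apply Finset.sum_congr rfl
      intro F hF
      rw [Finset.mem_erase, Finset.mem_Icc] at hF
      have hSF : S ⊆ F := (Finset.subset_insert _ _).trans hF.2.1
      rcases hRd F hSF hF.2.2 with h2 | h2
      · obtain ⟨e, heT, heF⟩ := Finset.exists_of_ssubset (lt_of_le_of_ne hF.2.2 hF.1)
        have h3 := h.mono (Finset.insert_subset heT hF.2.2)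
        have h4 := h.le_insert F e
        rw [mm_loop h heT heF (by omega)]
        ring
      · rw [Finset.union_comm, h2]
    rw [h1, mm_self, Finset.sdiff_self, Finset.empty_union]
    ring
  rw [e1, e2, ← Finset.sum_mul, hb] at hs
  unfold MUI
  have hs' : mm r S T ≤ ((r T : ℤ) - r S) * bb r S T := by nlinarith
  exact hs'

end Pool.Agent.Helper73.ST.F2
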